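import Mathlib

/-!
# Maps with good reduction outside a set of places: the points at distance one, and quadruples of
# points whose cross-ratio is an exceptional unit
-/

set_option autoImplicit false

namespace Pool.Agent.K3h24.UB

open Function

/-- points, brackets, distances, and a map with good reduction at the places of `V` -/
structure Sy (K : Type*) [Field K] (V : Type*) (av : V → AbsoluteValue K ℝ) (X : Type*)
    (f : X → X) where
  c : X → X → K
  c_zero : ∀ x y, c x y = 0 ↔ x = y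
  c_symm : ∀ x y, c y x = - c x y
  pl : ∀ a b e g, c a b * c e g - c a e * c b g + c a g * c b e = 0
  δ : V → X → X → ℝ
  N : V → X → ℝ
  N_pos : ∀ v x, 0 < N v x
  eq : ∀ v x y, av v (c x y) = δ v x y * (N v x * N v y)
  ultra : ∀ v x y z, δ v x z ≤ max (δ v x y) (δ v y z)
  le_one : ∀ v x y, δ v x y ≤ 1
  nonexp : ∀ v x y, δ v (f x) (f y) ≤ δ v x y
  rigid : ∀ v x y z, x ≠ y → δ v x y < 1 → δ v (f x) (f y) = δ v x y → δ v x z < 1 →
    δ v (f x) (f z) = δ v x z
  ms : ∀ v (k : ℕ) x y, δ v x y < 1 → δ v x (f^[k] x) < δ v x y → δ v y (f^[k] y) < δ v x y →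
    ∀ n : ℕ, (f^[k])^[n] x = x → f^[k] x ≠ x → av v (n : K) < 1

/-- the exceptional units: `x` and `1 - x` are units at all places of `V` -/
def EU {K : Type*} [Field K] {V : Type*} (av : V → AbsoluteValue K ℝ) : Set K :=
  {x | x ≠ 0 ∧ x ≠ 1 ∧ ∀ v, av v x = 1 ∧ av v (1 - x) = 1}

namespace Sy

variable {K : Type*} [Field K] {V : Type*} {av : V → AbsoluteValue K ℝ} {X : Type*} {f : X → X}
  (S : Sy K V av X f)

lemma symm (v : V) (x y : X) : S.δ v x y = S.δ v y x := by
  have h1 := S.eq v x y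
  have h2 := S.eq v y x
  rw [S.c_symm x y, AbsoluteValue.map_neg, h1, mul_comm (S.N v y)] at h2
  have h3 := mul_pos (S.N_pos v x) (S.N_pos v y)
  exact mul_right_cancel₀ h3.ne' h2

lemma nonneg (v : V) (x y : X) : 0 ≤ S.δ v x y := by
  have h1 := S.eq v x y
  have h3 := mul_pos (S.N_pos v x) (S.N_pos v y)
  by_contra hc
  push Not at hc
  have h4 := (av v).nonneg (S.c x y)
  rw [h1] at h4
  nlinarith

lemma self (v : V) (x : X) : S.δ v x x = 0 := by
  have h1 := S.eq v x x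
  rw [(S.c_zero x x).2 rfl, map_zero] at h1
  have h3 := mul_pos (S.N_pos v x) (S.N_pos v x)
  exact (mul_eq_zero.1 h1.symm).resolve_right h3.ne'

lemma pos (v : V) {x y : X} (h : x ≠ y) : 0 < S.δ v x y := by
  refine lt_of_le_of_ne (S.nonneg v x y) fun h0 => h ?_
  have h1 := S.eq v x y
  rw [← h0, zero_mul] at h1
  exact (S.c_zero x y).1 ((av v).eq_zero.1 h1)

lemma iter (v : V) (k : ℕ) (x y : X) : S.δ v (f^[k] x) (f^[k] y) ≤ S.δ v x y := by
  induction k with
  | zero => exact le_rfl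
  | succ k ih =>
    rw [iterate_succ_apply', iterate_succ_apply']
    exact (S.nonexp v _ _).trans ih

/-! ### Periodic points -/

lemma common {x y : X} (hx : x ∈ periodicPts f) (hy : y ∈ periodicPts f) :
    ∃ n, 0 < n ∧ f^[n] x = x ∧ f^[n] y = y := by
  obtain ⟨m, hm, hxm⟩ := hx
  obtain ⟨n, hn, hyn⟩ := hy
  exact ⟨m * n, Nat.mul_pos hm hn, (hxm.mul_const n), (hyn.const_mul m)⟩

lemma per_iter {x : X} (hx : x ∈ periodicPts f) (k : ℕ) : f^[k] x ∈ periodicPts f := by
  obtain ⟨m, hm, hxm⟩ := hx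
  exact ⟨m, hm, hxm.apply_iterate k⟩

/-- the iterates of the map are injective on the periodic points -/
lemma inj {x y : X} (hx : x ∈ periodicPts f) (hy : y ∈ periodicPts f) (k : ℕ)
    (h : f^[k] x = f^[k] y) : x = y := by
  obtain ⟨n, hn, h1, h2⟩ := common hx hy
  have hk : k ≤ n * k := Nat.le_mul_of_pos_left k hn
  have e : n * k = (n * k - k) + k := by omega
  have h1' : f^[n * k] x = x := (show IsPeriodicPt f n x from h1).mul_const k
  have h2' : f^[n * k] y = y := (show IsPeriodicPt f n y from h2).mul_const k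
  rw [e, iterate_add_apply] at h1' h2'
  rw [← h1', ← h2', h]

/-- every periodic point is the `k`-th iterate of a periodic point -/
lemma back {x : X} (hx : x ∈ periodicPts f) (k : ℕ) : ∃ s ∈ periodicPts f, f^[k] s = x := by
  obtain ⟨n, hn, h1⟩ := hx
  have hk : k ≤ n * k := Nat.le_mul_of_pos_left k hn
  have h1' : f^[n * k] x = x := h1.mul_const k
  refine ⟨f^[n * k - k] x, per_iter ⟨n, hn, h1⟩ _, ?_⟩
  rw [← iterate_add_apply, show k + (n * k - k) = n * k by omega, h1']

lemma isom (v : V) {x y : X} (hx : x ∈ periodicPts f) (hy : y ∈ periodicPts f) (k : ℕ) :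
    S.δ v (f^[k] x) (f^[k] y) = S.δ v x y := by
  refine le_antisymm (S.iter v k x y) ?_
  obtain ⟨n, hn, h1, h2⟩ := common hx hy
  have hk : k ≤ n * k := Nat.le_mul_of_pos_left k hn
  have h1' : f^[n * k] x = x := (show IsPeriodicPt f n x from h1).mul_const k
  have h2' : f^[n * k] y = y := (show IsPeriodicPt f n y from h2).mul_const k
  have h3 := S.iter v (n * k - k) (f^[k] x) (f^[k] y)
  rwa [← iterate_add_apply, ← iterate_add_apply, show n * k - k + k = n * k by omega, h1', h2'] at h3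

/-- if a residue disc contains two periodic points then all distances in it are preserved -/
lemma disc (v : V) {x y z : X} (hx : x ∈ periodicPts f) (hy : y ∈ periodicPts f) (hxy : x ≠ y)
    (h1 : S.δ v x y < 1) (h2 : S.δ v x z < 1) (k : ℕ) :
    S.δ v (f^[k] x) (f^[k] z) = S.δ v x z := by
  induction k with
  | zero => rfl
  | succ k ih =>
    rw [iterate_succ_apply', iterate_succ_apply']
    rw [S.rigid v (f^[k] x) (f^[k] y) (f^[k] z) (fun h => hxy (inj hx hy k h)) ?_ ?_ ?_, ih]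
    · rw [S.isom v hx hy]; exact h1
    · rw [← iterate_succ_apply' f k x, ← iterate_succ_apply' f k y, S.isom v hx hy, S.isom v hx hy]
    · rw [ih]; exact h2

/-- **a strictly preperiodic point is at distance one from all periodic points but one** -/
theorem tail_per {R s y : X} (hR : R ∉ periodicPts f) (hs : s ∈ periodicPts f)
    (hy : y ∈ periodicPts f) {k : ℕ} (hk : f^[k] R = f^[k] s) (hys : y ≠ s) (v : V) :
    S.δ v R y = 1 := by
  refine le_antisymm (S.le_one v R y) ?_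
  by_contra hc
  push Not at hc
  have h1 : S.δ v s y < 1 := by
    rw [← S.isom v hs hy k, ← hk]
    exact lt_of_le_of_lt (S.iter v k R y) hc
  have h2 : S.δ v s R < 1 := by
    refine lt_of_le_of_lt (S.ultra v s y R) (max_lt h1 ?_)
    rw [S.symm]; exact hc
  have h3 := S.disc v hs hy (Ne.symm hys) h1 h2 k
  rw [hk, S.self] at h3
  have h4 : s ≠ R := by rintro rfl; exact hR hs
  have := S.pos v h4
  linarith

/-- **two strictly preperiodic points with different tail lengths and different shadows** -/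
theorem tail_tail {R R' s s' : X} (hs : s ∈ periodicPts f) (hs' : s' ∈ periodicPts f) {k l : ℕ}
    (hk : f^[k] R = f^[k] s) (hk' : f^[k] R' = f^[k] s') (hss : s ≠ s')
    (hl : f^[l] R ∈ periodicPts f) (hl' : f^[l] R' ∉ periodicPts f) (v : V) :
    S.δ v R R' = 1 := by
  have e1 : f^[l] R = f^[l] s := by
    refine inj hl (per_iter hs l) k ?_
    rw [← iterate_add_apply, Nat.add_comm, iterate_add_apply, hk, ← iterate_add_apply,
      Nat.add_comm, iterate_add_apply]
  refine le_antisymm (S.le_one v R R') ?_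
  have h1 : S.δ v (f^[l] R') (f^[l] R) = 1 := by
    refine S.tail_per hl' (per_iter hs' l) hl (k := k) ?_ ?_ v
    · rw [← iterate_add_apply, Nat.add_comm, iterate_add_apply, hk', ← iterate_add_apply,
        Nat.add_comm, iterate_add_apply]
    · rw [e1]
      exact fun h => hss (inj hs hs' l h)
  rw [← h1, S.symm v R R']
  exact S.iter v l R' R

/-! ### Cross-ratios -/

/-- four different points whose cross-ratio and its complement are units -/
def Rel (x0 x1 x2 x3 : X) : Prop :=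
  x0 ≠ x1 ∧ x0 ≠ x2 ∧ x0 ≠ x3 ∧ x1 ≠ x2 ∧ x1 ≠ x3 ∧ x2 ≠ x3 ∧ ∀ v,
    S.δ v x0 x1 * S.δ v x2 x3 = S.δ v x0 x2 * S.δ v x1 x3 ∧
    S.δ v x0 x3 * S.δ v x1 x2 = S.δ v x0 x2 * S.δ v x1 x3

/-- the cross-ratio -/
def cr (x0 x1 x2 x3 : X) : K := S.c x0 x1 * S.c x2 x3 / (S.c x0 x2 * S.c x1 x3)

lemma c_ne {x y : X} (h : x ≠ y) : S.c x y ≠ 0 := fun h0 => h ((S.c_zero x y).1 h0)

lemma cr_mem {x0 x1 x2 x3 : X} (h : S.Rel x0 x1 x2 x3) : S.cr x0 x1 x2 x3 ∈ EU av := by
  obtain ⟨h01, h02, h03, h12, h13, h23, hv⟩ := h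
  have hb : S.c x0 x2 * S.c x1 x3 ≠ 0 := mul_ne_zero (S.c_ne h02) (S.c_ne h13)
  have hc : 1 - S.cr x0 x1 x2 x3 = S.c x0 x3 * S.c x1 x2 / (S.c x0 x2 * S.c x1 x3) := by
    unfold cr
    rw [eq_div_iff hb, sub_mul, div_mul_cancel₀ _ hb]
    linear_combination -S.pl x0 x1 x2 x3
  have key : ∀ v, av v (S.cr x0 x1 x2 x3) = 1 ∧ av v (1 - S.cr x0 x1 x2 x3) = 1 := by
    intro v
    obtain ⟨e1, e2⟩ := hv v
    have hbv : av v (S.c x0 x2 * S.c x1 x3) ≠ 0 := (av v).ne_zero hb
    constructor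
    · unfold cr
      rw [map_div₀, div_eq_one_iff_eq hbv, map_mul, map_mul, S.eq, S.eq, S.eq, S.eq]
      linear_combination (S.N v x0 * S.N v x1 * S.N v x2 * S.N v x3) * e1
    · rw [hc, map_div₀, div_eq_one_iff_eq hbv, map_mul, map_mul, S.eq, S.eq, S.eq, S.eq]
      linear_combination (S.N v x0 * S.N v x1 * S.N v x2 * S.N v x3) * e2
  refine ⟨?_, ?_, key⟩
  · exact div_ne_zero (mul_ne_zero (S.c_ne h01) (S.c_ne h23)) hb
  · intro h1
    have h2 : 1 - S.cr x0 x1 x2 x3 = 0 := by rw [h1, sub_self]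
    rw [hc] at h2
    exact div_ne_zero (mul_ne_zero (S.c_ne h03) (S.c_ne h12)) hb h2

lemma cr_inj {x y x1 x2 x3 : X} (h12 : x1 ≠ x2) (h13 : x1 ≠ x3) (h23 : x2 ≠ x3) (hx : x ≠ x2)
    (hy : y ≠ x2) (h : S.cr x x1 x2 x3 = S.cr y x1 x2 x3) : x = y := by
  unfold cr at h
  have h1 := S.c_ne hx
  have h2 := S.c_ne hy
  have h3 := S.c_ne h13
  have h4 := S.c_ne h23
  have h5 := S.c_ne h12
  rw [div_eq_div_iff (mul_ne_zero h1 h3) (mul_ne_zero h2 h3)] at h
  have h6 : (S.c x x1 * S.c y x2 - S.c y x1 * S.c x x2) * (S.c x2 x3 * S.c x1 x3) = 0 := by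
    linear_combination h
  have h7 := (mul_eq_zero.1 h6).resolve_right (mul_ne_zero h4 h3)
  have h8 := S.pl x y x1 x2
  have h9 : S.c x y * S.c x1 x2 = 0 := by linear_combination h8 + h7
  exact (S.c_zero x y).1 ((mul_eq_zero.1 h9).resolve_right h5)

/-- **the number of points whose cross-ratio with three given points is an exceptional unit** -/
theorem rel_card (x1 x2 x3 : X) : {x | S.Rel x x1 x2 x3}.encard ≤ (EU av).encard := by
  refine Set.encard_le_encard_of_injOn (f := fun x => S.cr x x1 x2 x3) (fun x hx => S.cr_mem hx) ?_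
  intro x hx y hy h
  obtain ⟨-, h02, -, h12, h13, h23, -⟩ := hx
  obtain ⟨-, h02', -⟩ := hy
  exact S.cr_inj h12 h13 h23 h02 h02' h

/-- a point at distance one from three points with equal mutual distances -/
lemma rel_of_equi {x a b c : X} (hab : a ≠ b) (hac : a ≠ c) (hbc : b ≠ c)
    (h : ∀ v, S.δ v a b = S.δ v a c ∧ S.δ v a b = S.δ v b c)
    (hx : x ≠ a ∧ x ≠ b ∧ x ≠ c) (hd : ∀ v, S.δ v x a = 1 ∧ S.δ v x b = 1 ∧ S.δ v x c = 1) :
    S.Rel x a b c := by
  refine ⟨hx.1, hx.2.1, hx.2.2, hab, hac, hbc, fun v => ?_⟩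
  obtain ⟨h1, h2⟩ := h v
  obtain ⟨h3, h4, h5⟩ := hd v
  rw [h3, h4, h5, ← h1, ← h2]
  exact ⟨rfl, rfl⟩

end Sy

end Pool.Agent.K3h24.UB
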