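import Mathlib
import Pool.Agent.K3h24.UB.Sys

/-!
# The lengths of the cycles of maps with (potentially) good reduction at two places of different
residue characteristics (after Morton and Silverman), from the distances
-/

set_option autoImplicit false

namespace Pool.Agent.K3h24.UB

open Function Finset

/-- at most `q` integral elements are pairwise incongruent modulo `v` -/
def Res {K : Type*} [Field K] (a : AbsoluteValue K ℝ) (q : ℕ) : Prop :=
  ∀ A : Finset K, (∀ x ∈ A, a x ≤ 1) → (∀ x ∈ A, ∀ y ∈ A, x ≠ y → a (x - y) = 1) → A.card ≤ q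

namespace Sy

variable {K : Type*} [Field K] {V : Type*} {av : V → AbsoluteValue K ℝ} {X : Type*} {f : X → X}
  (S : Sy K V av X f)

lemma mulle (v : V) (x : X) (r j : ℕ) : S.δ v x (f^[r * j] x) ≤ S.δ v x (f^[r] x) := by
  induction j with
  | zero =>
    rw [mul_zero]
    show S.δ v x x ≤ _
    rw [S.self]
    exact S.nonneg v _ _
  | succ j ih =>
    refine (S.ultra v x (f^[r * j] x) _).trans (max_le ih ?_)
    rw [mul_add, mul_one, iterate_add_apply]
    exact S.iter v (r * j) x (f^[r] x)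

lemma cop (v : V) {x : X} {r j q : ℕ} (hq0 : 0 < q) (hq : f^[r * q] x = x)
    (h : Nat.Coprime j q) : S.δ v x (f^[r * j] x) = S.δ v x (f^[r] x) := by
  refine le_antisymm (S.mulle v x r j) ?_
  rcases Nat.lt_or_ge 1 q with h1 | h1
  · obtain ⟨m, _, hm⟩ := Nat.exists_mul_mod_eq_one_of_coprime h h1
    have e : j * m = 1 + q * (j * m / q) := by
      have := Nat.mod_add_div (j * m) q
      rw [hm] at this
      exact this.symm
    have e2 : f^[r * j * m] x = f^[r] x := by
      rw [mul_assoc, e, mul_add, mul_one, ← mul_assoc, iterate_add_apply]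
      have : IsPeriodicPt f (r * q) x := hq
      rw [(this.mul_const _).eq]
    rw [← e2]
    exact S.mulle v x (r * j) m
  · have e : q = 1 := by omega
    rw [e, mul_one] at hq
    rw [hq, S.self]
    exact S.nonneg v _ _

lemma shift (v : V) {x : X} (hx : x ∈ periodicPts f) (i k : ℕ) :
    S.δ v (f^[i] x) (f^[i + k] x) = S.δ v x (f^[k] x) := by
  rw [iterate_add_apply]
  exact S.isom v hx (per_iter hx k) i

/-- a set of points with equal mutual distances -/
theorem equi_card {v : V} {q : ℕ} (hq : Res (av v) q) {t : ℕ} (P : ℕ → X) {ρ : ℝ}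
    (h : ∀ i < t, ∀ j < t, i ≠ j → P i ≠ P j ∧ S.δ v (P i) (P j) = ρ) : t ≤ q + 2 := by
  classical
  by_contra hc
  push Not at hc
  have ht : 3 ≤ t := by omega
  have h01 := h 0 (by omega) 1 (by omega) (by omega)
  have h02 := h 0 (by omega) 2 (by omega) (by omega)
  have h12 := h 1 (by omega) 2 (by omega) (by omega)
  have hρ : 0 < ρ := by rw [← h01.2]; exact S.pos v h01.1
  set g : ℕ → K := fun k => S.cr (P (k + 2)) (P 0) (P 1) (P 2) with hg
  have hgk : ∀ k < t - 2, av v (g k) = 1 := by
    intro k hk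
    have hy0 := h (k + 2) (by omega) 0 (by omega) (by omega)
    have hy1 := h (k + 2) (by omega) 1 (by omega) (by omega)
    simp only [hg]
    unfold cr
    have hb : S.c (P (k + 2)) (P 1) * S.c (P 0) (P 2) ≠ 0 :=
      mul_ne_zero (S.c_ne hy1.1) (S.c_ne h02.1)
    rw [map_div₀, div_eq_one_iff_eq ((av v).ne_zero hb), map_mul, map_mul, S.eq, S.eq, S.eq, S.eq,
      hy0.2, hy1.2, h02.2, h12.2]
    ring
  have hgd : ∀ k < t - 2, ∀ l < t - 2, k ≠ l → av v (g k - g l) = 1 := by
    intro k hk l hl hkl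
    have hy0 := h (k + 2) (by omega) 0 (by omega) (by omega)
    have hy1 := h (k + 2) (by omega) 1 (by omega) (by omega)
    have hz0 := h (l + 2) (by omega) 0 (by omega) (by omega)
    have hz1 := h (l + 2) (by omega) 1 (by omega) (by omega)
    have hyz := h (k + 2) (by omega) (l + 2) (by omega) (by omega)
    have n1 := S.c_ne hy1.1
    have n2 := S.c_ne hz1.1
    have n3 := S.c_ne h02.1
    have e : g k - g l = S.c (P 1) (P 2) * (S.c (P (k + 2)) (P (l + 2)) * S.c (P 0) (P 1)) /
        (S.c (P 0) (P 2) * (S.c (P (k + 2)) (P 1) * S.c (P (l + 2)) (P 1))) := by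
      simp only [hg]
      unfold cr
      field_simp
      have := S.pl (P (k + 2)) (P (l + 2)) (P 0) (P 1)
      linear_combination -(S.c (P 1) (P 2)) * this
    have hb : S.c (P 0) (P 2) * (S.c (P (k + 2)) (P 1) * S.c (P (l + 2)) (P 1)) ≠ 0 :=
      mul_ne_zero n3 (mul_ne_zero n1 n2)
    rw [e, map_div₀, div_eq_one_iff_eq ((av v).ne_zero hb), map_mul, map_mul, map_mul, map_mul,
      S.eq, S.eq, S.eq, S.eq, S.eq, S.eq, hy1.2, hz1.2, hyz.2, h02.2, h12.2, h01.2]
    ring
  have hinj : Set.InjOn g (range (t - 2) : Finset ℕ) := by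
    intro k hk l hl hkl
    rw [Finset.coe_range, Set.mem_Iio] at hk hl
    by_contra hne
    have := hgd k hk l hl hne
    rw [hkl, sub_self, map_zero] at this
    exact zero_ne_one this
  have h1 := hq ((range (t - 2)).image g) (fun x hx => by
    obtain ⟨k, hk, rfl⟩ := mem_image.1 hx
    exact (hgk k (mem_range.1 hk)).le) (fun x hx y hy hxy => by
    obtain ⟨k, hk, rfl⟩ := mem_image.1 hx
    obtain ⟨l, hl, rfl⟩ := mem_image.1 hy
    exact hgd k (mem_range.1 hk) l (mem_range.1 hl) fun h => hxy (by rw [h]))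
  rw [card_image_of_injOn hinj, card_range] at h1
  omega

/-- a block of equal distances -/
lemma block {v : V} {q : ℕ} (hq : Res (av v) q) {l : ℕ} (hl : l.Prime) {x : X}
    (hx : x ∈ periodicPts f) {r a b c : ℕ} (hper : f^[r * l ^ a] x = x)
    (hmin : ∀ i < a, f^[r * l ^ i] x ≠ x) (hbc : b ≤ c) (hca : c ≤ a) {ρ : ℝ}
    (h : ∀ i, b ≤ i → i < c → S.δ v x (f^[r * l ^ i] x) = ρ) : l ^ (c - b) ≤ q + 2 := by
  have key : ∀ i j : ℕ, i < j → j < l ^ (c - b) → f^[r * l ^ b * i] x ≠ f^[r * l ^ b * j] x ∧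
      S.δ v (f^[r * l ^ b * i] x) (f^[r * l ^ b * j] x) = ρ := by
    intro i j hij hj
    have hd : j - i ≠ 0 := by omega
    obtain ⟨e, j', hj', hje⟩ := Nat.exists_eq_pow_mul_and_not_dvd hd l hl.ne_one
    have hj0 : 0 < j' := Nat.pos_of_ne_zero fun h0 => hj' (h0 ▸ dvd_zero l)
    have he : e < c - b := by
      have h1 : l ^ e < l ^ (c - b) := by
        calc l ^ e ≤ l ^ e * j' := Nat.le_mul_of_pos_right _ hj0
          _ = j - i := hje.symm
          _ ≤ j := Nat.sub_le _ _
          _ < _ := hj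
      exact (Nat.pow_lt_pow_iff_right hl.one_lt).1 h1
    have hji : r * l ^ b * j = r * l ^ b * i + r * l ^ (b + e) * j' := by
      have : j = i + l ^ e * j' := by omega
      rw [this]
      ring
    have h2 : S.δ v (f^[r * l ^ b * i] x) (f^[r * l ^ b * j] x) = ρ := by
      rw [hji, S.shift v hx]
      rw [S.cop v (x := x) (r := r * l ^ (b + e)) (j := j') (q := l ^ (a - (b + e)))
        (pow_pos hl.pos _) ?_ ?_]
      · exact h _ (by omega) (by omega)
      · have : r * l ^ (b + e) * l ^ (a - (b + e)) = r * l ^ a := by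
          rw [mul_assoc, ← pow_add]
          congr 2
          omega
        rw [this, hper]
      · exact Nat.Coprime.pow_right _ ((Nat.Prime.coprime_iff_not_dvd hl).2 hj').symm
    refine ⟨fun h3 => ?_, h2⟩
    have h4 := h (b + e) (by omega) (by omega)
    rw [h3, S.self] at h2
    rw [← h2] at h4
    have h5 := S.pos v (hmin (b + e) (by omega)).symm
    rw [h4] at h5
    exact lt_irrefl _ h5
  refine S.equi_card hq (fun i => f^[r * l ^ b * i] x) (ρ := ρ) fun i hi j hj hij => ?_
  rcases lt_or_gt_of_ne hij with h1 | h1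
  · exact key i j h1 hj
  · obtain ⟨k1, k2⟩ := key j i h1 hi
    exact ⟨k1.symm, by rw [S.symm]; exact k2⟩

include S in
/-- **prime powers dividing the length of a cycle** -/
theorem ms_prime {v : V} {q : ℕ} (hq : Res (av v) q) {l : ℕ} (hl : l.Prime)
    (hlv : av v (l : K) = 1) {x : X} (hx : x ∈ periodicPts f) {r a : ℕ}
    (hper : f^[r * l ^ a] x = x) (hmin : ∀ i < a, f^[r * l ^ i] x ≠ x) : l ^ a ≤ (q + 2) ^ 2 := by
  classical
  set D : ℕ → ℝ := fun i => S.δ v x (f^[r * l ^ i] x) with hD
  have hanti : ∀ i, D (i + 1) ≤ D i := by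
    intro i
    simp only [hD]
    rw [pow_succ, ← mul_assoc]
    exact S.mulle v x _ _
  have hanti' : ∀ i j, i ≤ j → D j ≤ D i := fun i j h => antitone_nat_of_succ_le hanti h
  have hex : ∃ i, i = a ∨ D i < 1 := ⟨a, Or.inl rfl⟩
  set b := Nat.find hex with hb
  have hb1 : b = a ∨ D b < 1 := Nat.find_spec hex
  have hbm : ∀ i < b, ¬ (i = a ∨ D i < 1) := fun i hi => Nat.find_min hex hi
  have hba : b ≤ a := Nat.find_min' hex (Or.inl rfl)
  have k1 : l ^ (b - 0) ≤ q + 2 := S.block hq hl hx hper hmin (Nat.zero_le b) hba (ρ := 1)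
    fun i _ hi => by
      have := hbm i hi
      push Not at this
      exact le_antisymm (S.le_one v _ _) this.2
  rw [Nat.sub_zero] at k1
  rcases Nat.lt_or_ge b a with hlt | hge
  · have hDb : D b < 1 := by
      rcases hb1 with h | h
      · omega
      · exact h
    have hex2 : ∃ i, b ≤ i ∧ (i = a ∨ D i < D b) := ⟨a, hba, Or.inl rfl⟩
    set c := Nat.find hex2 with hc
    have hc1 : b ≤ c ∧ (c = a ∨ D c < D b) := Nat.find_spec hex2
    have hcm : ∀ i < c, ¬ (b ≤ i ∧ (i = a ∨ D i < D b)) := fun i hi => Nat.find_min hex2 hi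
    have hca : c ≤ a := Nat.find_min' hex2 ⟨hba, Or.inl rfl⟩
    have k2 : l ^ (c - b) ≤ q + 2 := S.block hq hl hx hper hmin hc1.1 hca (ρ := D b)
      fun i hi1 hi2 => by
        have := hcm i hi2
        push Not at this
        exact le_antisymm (hanti' _ _ hi1) (this hi1).2
    have hcaeq : c = a := by
      by_contra hne
      have hclt : c < a := lt_of_le_of_ne hca hne
      have hDc : D c < D b := hc1.2.resolve_left hne
      have h1 := S.ms v (r * l ^ c) x (f^[r * l ^ b] x) hDb hDc (by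
        have e : f^[r * l ^ c] (f^[r * l ^ b] x) = f^[r * l ^ b] (f^[r * l ^ c] x) := by
          rw [← iterate_add_apply, Nat.add_comm, iterate_add_apply]
        rw [e, S.isom v hx (per_iter hx _)]
        exact hDc) (l ^ (a - c)) (by
        rw [← iterate_mul, mul_assoc, ← pow_add, show c + (a - c) = a by omega, hper])
        (hmin c hclt)
      rw [Nat.cast_pow, map_pow, hlv, one_pow] at h1
      exact lt_irrefl _ h1
    calc l ^ a = l ^ b * l ^ (c - b) := by
          rw [← pow_add]
          congr 1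
          omega
      _ ≤ (q + 2) * (q + 2) := Nat.mul_le_mul k1 k2
      _ = (q + 2) ^ 2 := by ring
  · have : b = a := by omega
    rw [this] at k1
    calc l ^ a ≤ q + 2 := k1
      _ ≤ (q + 2) ^ 2 := Nat.le_self_pow (by norm_num) _

include S in
/-- **the lengths of the cycles** -/
theorem cycle_dvd {v₁ v₂ : V} {q : ℕ} (hq₁ : Res (av v₁) q) (hq₂ : Res (av v₂) q)
    (hch : ∀ l : ℕ, l.Prime → av v₁ (l : K) = 1 ∨ av v₂ (l : K) = 1) {x : X}
    (hx : x ∈ periodicPts f) : minimalPeriod f x ∣ ((q + 2) ^ 2).factorial := by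
  rw [Nat.dvd_iff_prime_pow_dvd_dvd]
  intro l a hl hdvd
  obtain ⟨r, hr⟩ := hdvd
  have hn : 0 < minimalPeriod f x := minimalPeriod_pos_of_mem_periodicPts hx
  have hper : f^[r * l ^ a] x = x := by
    rw [mul_comm, ← hr]
    exact isPeriodicPt_minimalPeriod f x
  have hr0 : 0 < r := by
    rcases Nat.eq_zero_or_pos r with h | h
    · rw [h, mul_zero] at hr; omega
    · exact h
  have hmin : ∀ i < a, f^[r * l ^ i] x ≠ x := by
    intro i hi h
    have h1 : IsPeriodicPt f (r * l ^ i) x := h
    have h2 := h1.minimalPeriod_le (Nat.mul_pos hr0 (pow_pos hl.pos _))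
    rw [hr, mul_comm] at h2
    have h3 : l ^ i < l ^ a := Nat.pow_lt_pow_right hl.one_lt hi
    nlinarith
  have hle : l ^ a ≤ (q + 2) ^ 2 := by
    rcases hch l hl with h | h
    · exact S.ms_prime hq₁ hl h hx hper hmin
    · exact S.ms_prime hq₂ hl h hx hper hmin
  exact Nat.dvd_factorial (pow_pos hl.pos _) hle

end Sy

end Pool.Agent.K3h24.UB
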