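import Mathlib
import Pool.Agent.K3h24.UB.MS

/-!
# The number of the strictly preperiodic points, in terms of the number of exceptional units
-/

set_option autoImplicit false

namespace Pool.Agent.K3h24.UB

open Function

/-- the preperiodic points -/
def PreP {X : Type*} (f : X → X) : Set X := {x | ∃ k, f^[k] x ∈ periodicPts f}

namespace Sy

variable {K : Type*} [Field K] {V : Type*} {av : V → AbsoluteValue K ℝ} {X : Type*} {f : X → X}
  (S : Sy K V av X f)

lemma per_of_lt {R : X} {i j : ℕ} (hij : i ≤ j) (h : f^[i] R ∈ periodicPts f) :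
    f^[j] R ∈ periodicPts f := by
  have e : j = (j - i) + i := by omega
  rw [e, iterate_add_apply]
  exact per_iter h _

lemma eq_of_le {R s : X} {i j : ℕ} (hij : i ≤ j) (h : f^[i] R = f^[i] s) :
    f^[j] R = f^[j] s := by
  have e : j = (j - i) + i := by omega
  rw [e, iterate_add_apply, iterate_add_apply, h]

/-- three periodic points with equal mutual distances -/
def Eq3 (a b c : X) : Prop :=
  a ∈ periodicPts f ∧ b ∈ periodicPts f ∧ c ∈ periodicPts f ∧ a ≠ b ∧ a ≠ c ∧ b ≠ c ∧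
    ∀ v, S.δ v a b = S.δ v a c ∧ S.δ v a b = S.δ v b c

lemma eq3_rel {a b c : X} (h : S.Eq3 a b c) {R s : X} (hR : R ∉ periodicPts f)
    (hs : s ∈ periodicPts f) (hsa : s ≠ a) (hsb : s ≠ b) (hsc : s ≠ c) {k : ℕ}
    (hk : f^[k] R = f^[k] s) : S.Rel R a b c := by
  obtain ⟨ha, hb, hc, hab, hac, hbc, hv⟩ := h
  refine S.rel_of_equi hab hac hbc hv ⟨?_, ?_, ?_⟩ fun v => ⟨?_, ?_, ?_⟩
  · rintro rfl; exact hR ha
  · rintro rfl; exact hR hb
  · rintro rfl; exact hR hc
  · exact S.tail_per hR hs ha hk hsa.symm v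
  · exact S.tail_per hR hs hb hk hsb.symm v
  · exact S.tail_per hR hs hc hk hsc.symm v

lemma cyc_ne {x : X} {a b : ℕ} (ha : a < b) (hb : b < minimalPeriod f x) :
    f^[a] x ≠ f^[b] x := by
  intro h
  have := iterate_injOn_Iio_minimalPeriod (f := f) (x := x) (x₁ := a) (x₂ := b)
    (by rw [Set.mem_Iio]; omega) (by rw [Set.mem_Iio]; exact hb) h
  omega

/-- equidistant points of a cycle whose length is divisible by a prime -/
lemma cyc_eq3 {x : X} (hx : x ∈ periodicPts f) {m p : ℕ} (hp : p.Prime)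
    (hn : minimalPeriod f x = m * p) (i : ℕ) {j1 j2 j3 : ℕ} (h12 : j1 < j2) (h23 : j2 < j3)
    (h3 : j3 < p) :
    S.Eq3 (f^[i + m * j1] x) (f^[i + m * j2] x) (f^[i + m * j3] x) := by
  have hn0 : 0 < minimalPeriod f x := minimalPeriod_pos_of_mem_periodicPts hx
  have hm : 0 < m := Nat.pos_of_ne_zero fun h => by rw [hn, h, zero_mul] at hn0; omega
  have hper : f^[m * p] x = x := by
    rw [← hn]; exact isPeriodicPt_minimalPeriod f x
  have hd : ∀ v, ∀ a b : ℕ, a < b → b < p →
      S.δ v (f^[i + m * a] x) (f^[i + m * b] x) = S.δ v x (f^[m] x) := by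
    intro v a b hab hb
    have e : i + m * b = (i + m * a) + m * (b - a) := by
      rw [add_assoc, ← mul_add]; congr 2; omega
    rw [e, S.shift v hx, S.cop v hp.pos hper]
    exact ((Nat.Prime.coprime_iff_not_dvd hp).2 fun h => by
      have := Nat.le_of_dvd (by omega) h
      omega).symm
  have hne : ∀ a b : ℕ, a < b → b < p → f^[i + m * a] x ≠ f^[i + m * b] x := by
    intro a b hab hb h
    rw [iterate_add_apply, iterate_add_apply] at h
    have h2 := inj (per_iter hx _) (per_iter hx _) i h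
    exact cyc_ne (Nat.mul_lt_mul_of_pos_left hab hm) (by
      rw [hn]; exact Nat.mul_lt_mul_of_pos_left hb hm) h2
  refine ⟨per_iter hx _, per_iter hx _, per_iter hx _, hne _ _ h12 (by omega),
    hne _ _ (by omega) h3, hne _ _ h23 h3, fun v => ?_⟩
  rw [hd v _ _ h12 (by omega), hd v _ _ (show j1 < j3 by omega) h3, hd v _ _ h23 h3]
  exact ⟨rfl, rfl⟩

/-- shadows exist -/
lemma shadow {R : X} (hR : R ∈ PreP f) : ∃ s ∈ periodicPts f, ∃ k, f^[k] R = f^[k] s := by
  obtain ⟨k, hk⟩ := hR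
  obtain ⟨s, hs, h⟩ := back hk k
  exact ⟨s, hs, k, h.symm⟩

include S in
/-- **a cycle whose length `n > 3` is not a power of two** -/
theorem tails_of_cycle {x : X} (hx : x ∈ periodicPts f) (h3 : 3 < minimalPeriod f x)
    (h2 : ∀ k : ℕ, minimalPeriod f x ≠ 2 ^ k) :
    (PreP f \ periodicPts f).encard ≤ 4 * (EU av).encard := by
  obtain ⟨p, hp, hpn, hodd⟩ : ∃ p, p.Prime ∧ p ∣ minimalPeriod f x ∧ Odd p := by
    rcases Nat.eq_two_pow_or_exists_odd_prime_and_dvd (minimalPeriod f x) with ⟨k, hk⟩ | h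
    · exact absurd hk (h2 k)
    · exact h
  obtain ⟨m, hm⟩ := hpn
  rw [mul_comm] at hm
  have hn0 : 0 < minimalPeriod f x := by omega
  have hm0 : 0 < m := Nat.pos_of_ne_zero fun h => by rw [hm, h, zero_mul] at hn0; omega
  have hp2 : p ≠ 2 := by rintro rfl; exact absurd hodd (by decide)
  have hp3 : 3 ≤ p := by have := hp.two_le; omega
  rcases Nat.eq_or_lt_of_le hp3 with h | h
  · -- the prime three
    subst h
    have hm2 : 2 ≤ m := by omega
    have k0 := S.cyc_eq3 hx hp hm 0 (j1 := 0) (j2 := 1) (j3 := 2) (by omega) (by omega) (by omega)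
    have k1 := S.cyc_eq3 hx hp hm 1 (j1 := 0) (j2 := 1) (j3 := 2) (by omega) (by omega) (by omega)
    have hsub : PreP f \ periodicPts f ⊆
        {y | S.Rel y (f^[0 + m * 0] x) (f^[0 + m * 1] x) (f^[0 + m * 2] x)} ∪
        {y | S.Rel y (f^[1 + m * 0] x) (f^[1 + m * 1] x) (f^[1 + m * 2] x)} := by
      rintro R ⟨hR1, hR2⟩
      obtain ⟨s, hs, k, hk⟩ := shadow hR1
      have key : ∀ a b : ℕ, a ≤ 2 → b ≤ 2 → f^[0 + m * a] x ≠ f^[1 + m * b] x := by
        intro a b ha hb h
        have e1 : 0 + m * a < 3 * m := by nlinarith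
        have e2 : 1 + m * b < 3 * m := by nlinarith
        rcases Nat.lt_trichotomy (0 + m * a) (1 + m * b) with h4 | h4 | h4
        · exact cyc_ne h4 (by rw [hm]; omega) h
        · have h5 : m ∣ 1 := by
            have h6 : m ∣ 1 + m * b := by rw [← h4, zero_add]; exact dvd_mul_right m a
            exact (Nat.dvd_add_left (dvd_mul_right m b)).1 h6
          have := Nat.le_of_dvd one_pos h5
          omega
        · exact cyc_ne h4 (by rw [hm]; omega) h.symm
      by_cases h0 : s = f^[0 + m * 0] x ∨ s = f^[0 + m * 1] x ∨ s = f^[0 + m * 2] x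
      · right
        refine S.eq3_rel k1 hR2 hs ?_ ?_ ?_ hk
        · rcases h0 with rfl | rfl | rfl
          · exact key 0 0 (by omega) (by omega)
          · exact key 1 0 (by omega) (by omega)
          · exact key 2 0 (by omega) (by omega)
        · rcases h0 with rfl | rfl | rfl
          · exact key 0 1 (by omega) (by omega)
          · exact key 1 1 (by omega) (by omega)
          · exact key 2 1 (by omega) (by omega)
        · rcases h0 with rfl | rfl | rfl
          · exact key 0 2 (by omega) (by omega)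
          · exact key 1 2 (by omega) (by omega)
          · exact key 2 2 (by omega) (by omega)
      · left
        push Not at h0
        exact S.eq3_rel k0 hR2 hs h0.1 h0.2.1 h0.2.2 hk
    refine (Set.encard_le_encard hsub).trans ((Set.encard_union_le _ _).trans ?_)
    calc _ ≤ (EU av).encard + (EU av).encard := add_le_add (S.rel_card _ _ _) (S.rel_card _ _ _)
      _ = 2 * (EU av).encard := (two_mul _).symm
      _ ≤ 4 * (EU av).encard := mul_le_mul_left (by norm_num) _
  · -- the primes at least five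
    have h5 : 5 ≤ p := by
      by_contra hc
      have h4 : p = 4 := by omega
      subst h4
      exact absurd hp (by norm_num)
    have e012 := S.cyc_eq3 hx hp hm 0 (j1 := 0) (j2 := 1) (j3 := 2) (by omega) (by omega) (by omega)
    have e013 := S.cyc_eq3 hx hp hm 0 (j1 := 0) (j2 := 1) (j3 := 3) (by omega) (by omega) (by omega)
    have e023 := S.cyc_eq3 hx hp hm 0 (j1 := 0) (j2 := 2) (j3 := 3) (by omega) (by omega) (by omega)
    have e123 := S.cyc_eq3 hx hp hm 0 (j1 := 1) (j2 := 2) (j3 := 3) (by omega) (by omega) (by omega)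
    set a := f^[0 + m * 0] x
    set b := f^[0 + m * 1] x
    set c := f^[0 + m * 2] x
    set d := f^[0 + m * 3] x
    have hab : a ≠ b := e012.2.2.2.1
    have hac : a ≠ c := e012.2.2.2.2.1
    have hbc : b ≠ c := e012.2.2.2.2.2.1
    have had : a ≠ d := e013.2.2.2.2.1
    have hbd : b ≠ d := e013.2.2.2.2.2.1
    have hcd : c ≠ d := e023.2.2.2.2.2.1
    have hsub : PreP f \ periodicPts f ⊆
        ({y | S.Rel y a b c} ∪ {y | S.Rel y a b d}) ∪ ({y | S.Rel y a c d} ∪ {y | S.Rel y b c d}) := by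
      rintro R ⟨hR1, hR2⟩
      obtain ⟨s, hs, k, hk⟩ := shadow hR1
      by_cases ha : s = a
      · right; right
        exact S.eq3_rel e123 hR2 hs (ha ▸ hab) (ha ▸ hac) (ha ▸ had) hk
      by_cases hb : s = b
      · right; left
        exact S.eq3_rel e023 hR2 hs ha (hb ▸ hbc) (hb ▸ hbd) hk
      by_cases hc : s = c
      · left; right
        exact S.eq3_rel e013 hR2 hs ha hb (hc ▸ hcd) hk
      · left; left
        exact S.eq3_rel e012 hR2 hs ha hb hc hk
    refine (Set.encard_le_encard hsub).trans ((Set.encard_union_le _ _).trans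
      ((add_le_add (Set.encard_union_le _ _) (Set.encard_union_le _ _)).trans ?_))
    calc _ ≤ ((EU av).encard + (EU av).encard) + ((EU av).encard + (EU av).encard) :=
          add_le_add (add_le_add (S.rel_card _ _ _) (S.rel_card _ _ _))
            (add_le_add (S.rel_card _ _ _) (S.rel_card _ _ _))
      _ = 4 * (EU av).encard := by ring

include S in
/-- **a cycle of length three: the preperiodic points which do not lead to it** -/
theorem tails_of_three {x : X} (hx : x ∈ periodicPts f) (h3 : minimalPeriod f x = 3) :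
    {R | R ∈ PreP f ∧ R ∉ periodicPts f ∧ ∀ k, f^[k] R ≠ x}.encard ≤ (EU av).encard := by
  have k0 := S.cyc_eq3 hx Nat.prime_three (m := 1) (by rw [h3]) 0 (j1 := 0) (j2 := 1) (j3 := 2)
    (by omega) (by omega) (by omega)
  refine (Set.encard_le_encard ?_).trans (S.rel_card (f^[0 + 1 * 0] x) (f^[0 + 1 * 1] x)
    (f^[0 + 1 * 2] x))
  rintro R ⟨hR1, hR2, hR3⟩
  obtain ⟨s, hs, k, hk⟩ := shadow hR1
  have key : ∀ j : ℕ, s ≠ f^[j] x := by
    intro j hj
    obtain ⟨n, hn, hxn⟩ := hx
    have h1 : f^[n * (k + j)] x = x := (hxn.mul_const (k + j))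
    have h2 : k + j ≤ n * (k + j) := Nat.le_mul_of_pos_left _ hn
    apply hR3 (n * (k + j) - (k + j) + k)
    rw [iterate_add_apply, hk, hj, ← iterate_add_apply, ← iterate_add_apply,
      show n * (k + j) - (k + j) + k + j = n * (k + j) by omega, h1]
  exact S.eq3_rel k0 hR2 hs (key _) (key _) (key _) hk

/-! ### Four points at mutual distance one -/

/-- three strictly preperiodic points with tail lengths `1, 2, 3` and a periodic point, with
different shadows -/
structure Conf (f : X → X) (W1 W2 W3 y s1 s2 s3 : X) : Prop where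
  p1 : s1 ∈ periodicPts f
  p2 : s2 ∈ periodicPts f
  p3 : s3 ∈ periodicPts f
  py : y ∈ periodicPts f
  h12 : s1 ≠ s2
  h13 : s1 ≠ s3
  h23 : s2 ≠ s3
  hy1 : y ≠ s1
  hy2 : y ≠ s2
  hy3 : y ≠ s3
  e1 : f^[1] W1 = f^[1] s1
  e2 : f^[2] W2 = f^[2] s2
  e3 : f^[3] W3 = f^[3] s3
  n1 : W1 ∉ periodicPts f
  n2 : f^[1] W2 ∉ periodicPts f
  n3 : f^[2] W3 ∉ periodicPts f

include S in
/-- **the preperiodic points with tails longer than three** -/
theorem tails_of_conf {W1 W2 W3 y s1 s2 s3 : X} (h : Conf f W1 W2 W3 y s1 s2 s3) :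
    {R | R ∈ PreP f ∧ f^[3] R ∉ periodicPts f}.encard ≤ 4 * (EU av).encard := by
  obtain ⟨p1, p2, p3, py, h12, h13, h23, hy1, hy2, hy3, e1, e2, e3, n1, n2, n3⟩ := h
  have e1' : f^[3] W1 = f^[3] s1 := eq_of_le (by omega) e1
  have e2' : f^[3] W2 = f^[3] s2 := eq_of_le (by omega) e2
  have q1 : f^[1] W1 ∈ periodicPts f := by rw [e1]; exact per_iter p1 1
  have q2 : f^[2] W2 ∈ periodicPts f := by rw [e2]; exact per_iter p2 2
  have q3 : f^[3] W3 ∈ periodicPts f := by rw [e3]; exact per_iter p3 3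
  have n2' : W2 ∉ periodicPts f := fun h => n2 (per_iter h 1)
  have n3' : W3 ∉ periodicPts f := fun h => n3 (per_iter h 2)
  have n3'' : f^[1] W3 ∉ periodicPts f := fun h => n3 (per_of_lt (by omega) h)
  have d12 : ∀ v, S.δ v W1 W2 = 1 := fun v => S.tail_tail p1 p2 e1' e2' h12 q1 n2 v
  have d13 : ∀ v, S.δ v W1 W3 = 1 := fun v => S.tail_tail p1 p3 e1' e3 h13 q1 n3'' v
  have d23 : ∀ v, S.δ v W2 W3 = 1 := fun v => S.tail_tail p2 p3 e2' e3 h23 q2 n3 v
  have d1y : ∀ v, S.δ v W1 y = 1 := fun v => S.tail_per n1 p1 py e1' hy1 v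
  have d2y : ∀ v, S.δ v W2 y = 1 := fun v => S.tail_per n2' p2 py e2' hy2 v
  have d3y : ∀ v, S.δ v W3 y = 1 := fun v => S.tail_per n3' p3 py e3 hy3 v
  have hself : ∀ {a b : X}, f^[0] a = a ∧ f^[0] b = b := fun {_ _} => ⟨rfl, rfl⟩
  have w12 : W1 ≠ W2 := by rintro rfl; exact n2 q1
  have w13 : W1 ≠ W3 := by rintro rfl; exact n3'' q1
  have w23 : W2 ≠ W3 := by rintro rfl; exact n3 q2
  have w1y : W1 ≠ y := by rintro rfl; exact n1 py
  have w2y : W2 ≠ y := by rintro rfl; exact n2' py
  have w3y : W3 ≠ y := by rintro rfl; exact n3' py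
  have hsub : {R | R ∈ PreP f ∧ f^[3] R ∉ periodicPts f} ⊆
      ({R | S.Rel R W1 W2 W3} ∪ {R | S.Rel R W1 W2 y}) ∪
        ({R | S.Rel R W1 W3 y} ∪ {R | S.Rel R W2 W3 y}) := by
    rintro R ⟨hR1, hR2⟩
    obtain ⟨s, hs, k, hk⟩ := shadow hR1
    have hR0 : R ∉ periodicPts f := fun h => hR2 (per_iter h 3)
    have hkR : f^[k + 3] R = f^[k + 3] s := eq_of_le (by omega) hk
    have r1 : R ≠ W1 := by rintro rfl; exact hR2 (per_of_lt (by omega) q1)
    have r2 : R ≠ W2 := by rintro rfl; exact hR2 (per_of_lt (by omega) q2)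
    have r3 : R ≠ W3 := by rintro rfl; exact hR2 q3
    have ry : R ≠ y := by rintro rfl; exact hR0 py
    have D1 : s ≠ s1 → ∀ v, S.δ v R W1 = 1 := fun h v => by
      rw [S.symm]
      exact S.tail_tail p1 hs (eq_of_le (j := k + 3) (by omega) e1') hkR h.symm
        (per_of_lt (by omega) q1) hR2 v
    have D2 : s ≠ s2 → ∀ v, S.δ v R W2 = 1 := fun h v => by
      rw [S.symm]
      exact S.tail_tail p2 hs (eq_of_le (j := k + 3) (by omega) e2') hkR h.symm
        (per_of_lt (by omega) q2) hR2 v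
    have D3 : s ≠ s3 → ∀ v, S.δ v R W3 = 1 := fun h v => by
      rw [S.symm]
      exact S.tail_tail p3 hs (eq_of_le (j := k + 3) (by omega) e3) hkR h.symm q3 hR2 v
    have Dy : s ≠ y → ∀ v, S.δ v R y = 1 := fun h v => S.tail_per hR0 hs py hk h.symm v
    by_cases hs1 : s = s1
    · right; right
      refine S.rel_of_equi w23 w2y w3y (fun v => ?_) ⟨r2, r3, ry⟩ fun v =>
        ⟨D2 (by rw [hs1]; exact h12) v, D3 (by rw [hs1]; exact h13) v,
          Dy (by rw [hs1]; exact hy1.symm) v⟩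
      rw [d23 v, d2y v, d3y v]; exact ⟨rfl, rfl⟩
    by_cases hs2 : s = s2
    · right; left
      refine S.rel_of_equi w13 w1y w3y (fun v => ?_) ⟨r1, r3, ry⟩ fun v =>
        ⟨D1 hs1 v, D3 (by rw [hs2]; exact h23) v, Dy (by rw [hs2]; exact hy2.symm) v⟩
      rw [d13 v, d1y v, d3y v]; exact ⟨rfl, rfl⟩
    by_cases hs3 : s = s3
    · left; right
      refine S.rel_of_equi w12 w1y w2y (fun v => ?_) ⟨r1, r2, ry⟩ fun v =>
        ⟨D1 hs1 v, D2 hs2 v, Dy (by rw [hs3]; exact hy3.symm) v⟩
      rw [d12 v, d1y v, d2y v]; exact ⟨rfl, rfl⟩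
    · left; left
      refine S.rel_of_equi w12 w13 w23 (fun v => ?_) ⟨r1, r2, r3⟩ fun v =>
        ⟨D1 hs1 v, D2 hs2 v, D3 hs3 v⟩
      rw [d12 v, d13 v, d23 v]; exact ⟨rfl, rfl⟩
  refine (Set.encard_le_encard hsub).trans ((Set.encard_union_le _ _).trans
    ((add_le_add (Set.encard_union_le _ _) (Set.encard_union_le _ _)).trans ?_))
  calc _ ≤ ((EU av).encard + (EU av).encard) + ((EU av).encard + (EU av).encard) :=
        add_le_add (add_le_add (S.rel_card _ _ _) (S.rel_card _ _ _))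
          (add_le_add (S.rel_card _ _ _) (S.rel_card _ _ _))
    _ = 4 * (EU av).encard := by ring

end Sy

end Pool.Agent.K3h24.UB
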