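import Mathlib
import Pool.Agent.K3h24.UB.Tail

/-!
# Long tails lead to at most three periodic points, up to a bounded number of points
-/

set_option autoImplicit false

namespace Pool.Agent.K3h24.UB

open Function

namespace Sy

variable {K : Type*} [Field K] {V : Type*} {av : V → AbsoluteValue K ℝ} {X : Type*} {f : X → X}
  (S : Sy K V av X f)

/-- the periodic points to which tails of length at least three lead -/
def EE (f : X → X) : Set X :=
  {e | e ∈ periodicPts f ∧ ∃ R, f^[2] R ∉ periodicPts f ∧ ∃ k, f^[k] R = e}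

lemma land {e : X} (he : e ∈ EE f) : ∃ c ∈ periodicPts f,
    (∃ R, f^[3] R = c ∧ f^[2] R ∉ periodicPts f) ∧ ∃ j, f^[j] c = e := by
  classical
  obtain ⟨he, R, hR, k, hk⟩ := he
  have hex : ∃ l, f^[l] R ∈ periodicPts f := ⟨k, by rw [hk]; exact he⟩
  set l := Nat.find hex with hl
  have hl1 : f^[l] R ∈ periodicPts f := Nat.find_spec hex
  have hlm : ∀ i < l, f^[i] R ∉ periodicPts f := fun i hi => Nat.find_min hex hi
  have hlk : l ≤ k := Nat.find_min' hex (by rw [hk]; exact he)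
  have hl3 : 3 ≤ l := by
    by_contra hc
    exact hR (per_of_lt (by omega) hl1)
  refine ⟨f^[l] R, hl1, ⟨f^[l - 3] R, ?_, ?_⟩, k - l, ?_⟩
  · rw [← iterate_add_apply]; congr 1; omega
  · rw [← iterate_add_apply]
    exact hlm _ (by omega)
  · rw [← iterate_add_apply, ← hk]; congr 1; omega

/-- landing points of tails of length three -/
def Ld (f : X → X) (c : X) : Prop :=
  c ∈ periodicPts f ∧ ∃ R, f^[3] R = c ∧ f^[2] R ∉ periodicPts f

lemma conf_of_land {c1 c2 c3 : X} (h1 : Ld f c1) (h2 : Ld f c2) (h3 : Ld f c3)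
    (n12 : f c1 ≠ c2) (n23 : f c2 ≠ c3) (n13 : f (f c1) ≠ c3)
    (h4 : 3 < (periodicPts f).encard) :
    ∃ W1 W2 W3 y s1 s2 s3, Conf f W1 W2 W3 y s1 s2 s3 := by
  obtain ⟨p1, R1, a1, b1⟩ := h1
  obtain ⟨p2, R2, a2, b2⟩ := h2
  obtain ⟨p3, R3, a3, b3⟩ := h3
  obtain ⟨s1, q1, t1⟩ := back p1 1
  obtain ⟨s2, q2, t2⟩ := back p2 2
  obtain ⟨s3, q3, t3⟩ := back p3 3
  have hy : ∃ y ∈ periodicPts f, y ≠ s1 ∧ y ≠ s2 ∧ y ≠ s3 := by
    by_contra hc
    push Not at hc
    have hsub : periodicPts f ⊆ {s1, s2, s3} := by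
      intro y hy
      by_cases e1 : y = s1
      · rw [e1]; simp
      by_cases e2 : y = s2
      · rw [e2]; simp
      · rw [hc y hy e1 e2]; simp
    have h5 := (Set.encard_le_encard hsub).trans ((Set.encard_insert_le _ _).trans
      (add_le_add_left (Set.encard_insert_le _ _) 1))
    rw [Set.encard_singleton] at h5
    have h6 : (1 : ℕ∞) + 1 + 1 = 3 := by norm_num
    rw [h6] at h5
    exact absurd h4 (not_lt.2 h5)
  obtain ⟨y, hy, y1, y2, y3⟩ := hy
  refine ⟨f^[2] R1, f^[1] R2, R3, y, s1, s2, s3, q1, q2, q3, hy, ?_, ?_, ?_, y1, y2, y3, ?_, ?_, ?_,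
    b1, ?_, b3⟩
  · rintro rfl
    apply n12
    rw [← t1, ← t2]; rfl
  · rintro rfl
    apply n13
    rw [← t1, ← t3]; rfl
  · rintro rfl
    apply n23
    rw [← t2, ← t3]; rfl
  · rw [← iterate_add_apply, t1]; exact a1
  · rw [← iterate_add_apply, t2]; exact a2
  · rw [a3, t3]
  · rw [← iterate_add_apply]; exact b2

/-- a set with more than two elements -/
lemma three_of {α : Type*} {E : Set α} (h : ¬ E.encard ≤ 2) :
    ∃ a ∈ E, ∃ b ∈ E, ∃ c ∈ E, a ≠ b ∧ a ≠ c ∧ b ≠ c := by
  by_contra hc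
  push Not at hc
  apply h
  rcases E.eq_empty_or_nonempty with h0 | ⟨a, ha⟩
  · rw [h0, Set.encard_empty]; exact bot_le
  by_cases hb : ∃ b ∈ E, a ≠ b
  · obtain ⟨b, hb, hab⟩ := hb
    have hsub : E ⊆ {a, b} := by
      intro c hc'
      by_cases hac : a = c
      · rw [hac]; simp
      · rw [hc a ha b hb c hc' hab hac]; simp
    refine (Set.encard_le_encard hsub).trans ((Set.encard_insert_le _ _).trans ?_)
    rw [Set.encard_singleton]
    norm_num
  · push Not at hb
    have hsub : E ⊆ {a} := fun c hc' => by rw [hb c hc']; rfl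
    refine (Set.encard_le_encard hsub).trans ?_
    rw [Set.encard_singleton]
    norm_num

lemma conf_exists (hE : ¬ (EE f).encard ≤ 2) (h4 : 3 < (periodicPts f).encard) :
    ∃ W1 W2 W3 y s1 s2 s3, Conf f W1 W2 W3 y s1 s2 s3 := by
  obtain ⟨e1, he1, e2, he2, e3, he3, h12, h13, h23⟩ := three_of hE
  obtain ⟨c1, p1, l1, j1, k1⟩ := land he1
  obtain ⟨c2, p2, l2, j2, k2⟩ := land he2
  obtain ⟨c3, p3, l3, j3, k3⟩ := land he3
  have L1 : Ld f c1 := ⟨p1, l1⟩
  have L2 : Ld f c2 := ⟨p2, l2⟩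
  have L3 : Ld f c3 := ⟨p3, l3⟩
  by_cases hlong : ∃ c, Ld f c ∧ f c ≠ c ∧ f (f c) ≠ c
  · obtain ⟨c, hc, n1, n2⟩ := hlong
    exact conf_of_land hc hc hc n1 n1 n2 h4
  push Not at hlong
  -- all landing points satisfy `f (f c) = c`
  have h2 : ∀ c, Ld f c → f (f c) = c := by
    intro c hc
    by_cases h : f c = c
    · rw [h, h]
    · exact hlong c hc h
  have horb : ∀ c, Ld f c → ∀ j, f^[j] c = c ∨ f^[j] c = f c := by
    intro c hc j
    induction j with
    | zero => left; rfl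
    | succ j ih =>
      rw [iterate_succ_apply']
      rcases ih with h | h
      · right; rw [h]
      · left; rw [h, h2 c hc]
  by_cases htwo : ∃ c, Ld f c ∧ f c ≠ c
  · obtain ⟨c, hc, n1⟩ := htwo
    -- one of the three points is outside the cycle of `c`
    have hout : ∃ c', Ld f c' ∧ c' ≠ c ∧ c' ≠ f c := by
      by_contra hcon
      push Not at hcon
      have hin : ∀ c' j, Ld f c' → f^[j] c' = c ∨ f^[j] c' = f c := by
        intro c' j hc'
        rcases horb c' hc' j with h | h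
        · rw [h]
          by_cases h3 : c' = c
          · left; exact h3
          · right; exact hcon c' hc' h3
        · rw [h]
          by_cases h3 : c' = c
          · right; rw [h3]
          · left; rw [hcon c' hc' h3, h2 c hc]
      have i1 := hin c1 j1 L1
      have i2 := hin c2 j2 L2
      have i3 := hin c3 j3 L3
      rw [k1] at i1
      rw [k2] at i2
      rw [k3] at i3
      rcases i1 with i1 | i1 <;> rcases i2 with i2 | i2 <;> rcases i3 with i3 | i3
      · exact h12 (i1.trans i2.symm)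
      · exact h12 (i1.trans i2.symm)
      · exact h13 (i1.trans i3.symm)
      · exact h23 (i2.trans i3.symm)
      · exact h23 (i2.trans i3.symm)
      · exact h13 (i1.trans i3.symm)
      · exact h12 (i1.trans i2.symm)
      · exact h12 (i1.trans i2.symm)
    obtain ⟨c', hc', m1, m2⟩ := hout
    exact conf_of_land hc hc hc' n1 (fun h => m2 h.symm) (fun h => m1 (by rw [← h, h2 c hc])) h4
  · push Not at htwo
    have i1 : e1 = c1 := by
      rcases horb c1 L1 j1 with h | h
      · rw [← k1, h]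
      · rw [← k1, h, htwo c1 L1]
    have i2 : e2 = c2 := by
      rcases horb c2 L2 j2 with h | h
      · rw [← k2, h]
      · rw [← k2, h, htwo c2 L2]
    have i3 : e3 = c3 := by
      rcases horb c3 L3 j3 with h | h
      · rw [← k3, h]
      · rw [← k3, h, htwo c3 L3]
    refine conf_of_land L1 L2 L3 ?_ ?_ ?_ h4
    · rw [htwo c1 L1, ← i1, ← i2]; exact h12
    · rw [htwo c2 L2, ← i2, ← i3]; exact h23
    · rw [htwo c1 L1, htwo c1 L1, ← i1, ← i3]; exact h13

include S in
/-- **long tails lead to at most three periodic points, up to a bounded number of points** -/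
theorem few_targets {A : ℕ∞} (hA : {R | f^[3] R ∈ periodicPts f}.encard ≤ A) :
    ∃ E ⊆ periodicPts f, E.encard ≤ 3 ∧ (E.encard ≤ 2 ∨ (periodicPts f).encard = 3) ∧
      {R | R ∈ PreP f ∧ (∀ k, f^[k] R ∉ E) ∧ f^[3] R ∉ periodicPts f}.encard ≤
        4 * (EU av).encard ∧
      {R | R ∈ PreP f ∧ ∀ k, f^[k] R ∉ E}.encard ≤ 4 * (EU av).encard + A := by
  have hEE : EE f ⊆ periodicPts f := fun e he => he.1
  have hper : ∀ R, R ∈ PreP f → (∀ k, f^[k] R ∉ EE f) → f^[2] R ∈ periodicPts f := by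
    rintro R ⟨k, hk⟩ hR2
    by_contra hc
    exact hR2 k ⟨hk, R, hc, k, rfl⟩
  have hbnd : {R | R ∈ PreP f ∧ ∀ k, f^[k] R ∉ EE f}.encard ≤ 4 * (EU av).encard + A := by
    refine ((Set.encard_le_encard ?_).trans hA).trans le_add_self
    rintro R ⟨hR1, hR2⟩
    exact per_of_lt (by omega) (hper R hR1 hR2)
  have hbnd0 : {R | R ∈ PreP f ∧ (∀ k, f^[k] R ∉ EE f) ∧ f^[3] R ∉ periodicPts f}.encard ≤
      4 * (EU av).encard := by
    have : {R | R ∈ PreP f ∧ (∀ k, f^[k] R ∉ EE f) ∧ f^[3] R ∉ periodicPts f} = ∅ := by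
      rw [Set.eq_empty_iff_forall_notMem]
      rintro R ⟨hR1, hR2, hR3⟩
      exact hR3 (per_of_lt (by omega) (hper R hR1 hR2))
    rw [this, Set.encard_empty]
    exact bot_le
  by_cases h2 : (EE f).encard ≤ 2
  · exact ⟨EE f, hEE, h2.trans (by norm_num), Or.inl h2, hbnd0, hbnd⟩
  by_cases h3 : 3 < (periodicPts f).encard
  · obtain ⟨W1, W2, W3, y, s1, s2, s3, hC⟩ := conf_exists h2 h3
    refine ⟨∅, Set.empty_subset _, by simp, Or.inl (by simp), ?_, ?_⟩
    · refine (Set.encard_le_encard ?_).trans (S.tails_of_conf hC)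
      rintro R ⟨hR1, -, hR3⟩
      exact ⟨hR1, hR3⟩
    have hsub : {R | R ∈ PreP f ∧ ∀ k, f^[k] R ∉ (∅ : Set X)} ⊆
        {R | R ∈ PreP f ∧ f^[3] R ∉ periodicPts f} ∪ {R | f^[3] R ∈ periodicPts f} := by
      rintro R ⟨hR, -⟩
      by_cases h : f^[3] R ∈ periodicPts f
      · right; exact h
      · left; exact ⟨hR, h⟩
    exact (Set.encard_le_encard hsub).trans ((Set.encard_union_le _ _).trans
      (add_le_add (S.tails_of_conf hC) hA))
  · push Not at h2 h3
    have h4 : (3 : ℕ∞) ≤ (EE f).encard := by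
      have := Order.add_one_le_of_lt h2
      have h5 : (2 : ℕ∞) + 1 = 3 := by norm_num
      rwa [h5] at this
    have h5 := Set.encard_le_encard hEE
    exact ⟨EE f, hEE, h5.trans h3, Or.inr (le_antisymm h3 (h4.trans h5)), hbnd0, hbnd⟩

end Sy

end Pool.Agent.K3h24.UB
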