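import Mathlib
import Pool.Agent.H892.PGR.Loc

/-!
# Good reduction at one place: difference quotients modulo the maximal ideal

`w` is a nonarchimedean absolute value of the field `L` and `F`, `G` are integral forms of degree
`m` which map vectors of norm one to vectors of norm one. The difference quotients of the map
`[F : G]` on a residue disc are all congruent. Hence (`rigid_vec`) the map preserves all distances in
a residue disc if it preserves one, and (`ms_vec`) a cycle of length `n > 1` in a residue disc on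
which the difference quotients are congruent to one has a length divisible by the residue
characteristic.
-/

set_option autoImplicit false

namespace Pool.Agent.K3h24.UB

open MvPolynomial Finset
open Pool.Agent.H892.PGR

variable {L : Type*} [Field L] (w : AbsoluteValue L ℝ)

/-- congruence of integral elements modulo the maximal ideal -/
def Cg (x y : L) : Prop := w x ≤ 1 ∧ w y ≤ 1 ∧ w (x - y) < 1

section cg

variable {w} (hna : ∀ x y : L, w (x + y) ≤ max (w x) (w y))

lemma Cg.refl {x : L} (h : w x ≤ 1) : Cg w x x := ⟨h, h, by simp⟩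

lemma Cg.symm {x y : L} (h : Cg w x y) : Cg w y x :=
  ⟨h.2.1, h.1, by rw [AbsoluteValue.map_sub]; exact h.2.2⟩

include hna in
lemma Cg.trans {x y z : L} (h : Cg w x y) (h' : Cg w y z) : Cg w x z := by
  refine ⟨h.1, h'.2.1, ?_⟩
  have : x - z = (x - y) + (y - z) := by ring
  rw [this]
  exact lt_of_le_of_lt (hna _ _) (max_lt h.2.2 h'.2.2)

include hna in
lemma Cg.add {x y x' y' : L} (h : Cg w x x') (h' : Cg w y y') : Cg w (x + y) (x' + y') := by
  refine ⟨(hna _ _).trans (max_le h.1 h'.1), (hna _ _).trans (max_le h.2.1 h'.2.1), ?_⟩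
  have : x + y - (x' + y') = (x - x') + (y - y') := by ring
  rw [this]
  exact lt_of_le_of_lt (hna _ _) (max_lt h.2.2 h'.2.2)

lemma Cg.neg {x x' : L} (h : Cg w x x') : Cg w (-x) (-x') := by
  refine ⟨by rw [AbsoluteValue.map_neg]; exact h.1, by rw [AbsoluteValue.map_neg]; exact h.2.1, ?_⟩
  have : -x - -x' = -(x - x') := by ring
  rw [this, AbsoluteValue.map_neg]
  exact h.2.2

include hna in
lemma Cg.mul {x y x' y' : L} (h : Cg w x x') (h' : Cg w y y') : Cg w (x * y) (x' * y') := by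
  refine ⟨?_, ?_, ?_⟩
  · rw [map_mul]; exact mul_le_one₀ h.1 (w.nonneg _) h'.1
  · rw [map_mul]; exact mul_le_one₀ h.2.1 (w.nonneg _) h'.2.1
  · have : x * y - x' * y' = (x - x') * y + x' * (y - y') := by ring
    rw [this]
    refine lt_of_le_of_lt (hna _ _) (max_lt ?_ ?_)
    · rw [map_mul]
      have := h.2.2
      have := w.nonneg (x - x')
      nlinarith [w.nonneg y, h'.1]
    · rw [map_mul]
      have := h'.2.2
      have := w.nonneg (y - y')
      nlinarith [w.nonneg x', h.2.1]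

include hna in
lemma Cg.pow {x x' : L} (h : Cg w x x') (n : ℕ) : Cg w (x ^ n) (x' ^ n) := by
  induction n with
  | zero => simp only [pow_zero]; exact Cg.refl (by simp)
  | succ n ih => rw [pow_succ, pow_succ]; exact ih.mul hna h

include hna in
lemma Cg.sum {ι : Type*} (s : Finset ι) {f g : ι → L} (h : ∀ i ∈ s, Cg w (f i) (g i)) :
    Cg w (∑ i ∈ s, f i) (∑ i ∈ s, g i) := by
  classical
  induction s using Finset.induction_on with
  | empty => simp only [Finset.sum_empty]; exact Cg.refl (by simp)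
  | insert a s ha ih =>
    rw [Finset.sum_insert ha, Finset.sum_insert ha]
    exact (h a (mem_insert_self a s)).add hna (ih fun i hi => h i (mem_insert_of_mem hi))

include hna in
/-- congruent elements: one is a unit if the other is -/
lemma Cg.unit {x y : L} (h : Cg w x y) (hx : w x = 1) : w y = 1 := by
  refine le_antisymm h.2.1 ?_
  by_contra hc
  push Not at hc
  have e : x = (x - y) + y := by ring
  have h1 : w x < 1 := by
    rw [e]
    exact lt_of_le_of_lt (hna _ _) (max_lt h.2.2 hc)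
  linarith

include hna in
lemma Cg.inv {x y : L} (h : Cg w x y) (hx : w x = 1) : Cg w x⁻¹ y⁻¹ := by
  have hy := h.unit hna hx
  have hx0 : x ≠ 0 := by rintro rfl; rw [map_zero] at hx; exact zero_ne_one hx
  have hy0 : y ≠ 0 := by rintro rfl; rw [map_zero] at hy; exact zero_ne_one hy
  refine ⟨by rw [map_inv₀, hx, inv_one], by rw [map_inv₀, hy, inv_one], ?_⟩
  have e : x⁻¹ - y⁻¹ = -(x - y) * (x⁻¹ * y⁻¹) := by field_simp; ring
  rw [e, map_mul, map_mul, map_inv₀, map_inv₀, hx, hy, AbsoluteValue.map_neg]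
  simpa using h.2.2

end cg

/-- the quotient of an elementary alternating expression by the bracket -/
noncomputable def hm (s0 s1 t0 t1 : ℕ) (u v : Fin 2 → L) : L :=
  if t0 ≤ s0 then (u 0 * v 0) ^ t0 * (u 1 * v 1) ^ s1 *
    ∑ i ∈ range (s0 - t0), (u 0 * v 1) ^ i * (u 1 * v 0) ^ (s0 - t0 - 1 - i)
  else -((u 0 * v 0) ^ s0 * (u 1 * v 1) ^ t1 *
    ∑ i ∈ range (t0 - s0), (u 0 * v 1) ^ i * (u 1 * v 0) ^ (t0 - s0 - 1 - i))

lemma hm_eq {s0 s1 t0 t1 m : ℕ} (hs : s0 + s1 = m) (ht : t0 + t1 = m) (u v : Fin 2 → L) :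
    u 0 ^ s0 * u 1 ^ s1 * (v 0 ^ t0 * v 1 ^ t1) - v 0 ^ s0 * v 1 ^ s1 * (u 0 ^ t0 * u 1 ^ t1) =
      br u v * hm s0 s1 t0 t1 u v := by
  unfold hm
  by_cases h : t0 ≤ s0
  · rw [if_pos h]
    obtain ⟨r, rfl⟩ := Nat.exists_eq_add_of_le h
    have ht1 : t1 = s1 + r := by omega
    subst ht1
    rw [Nat.add_sub_cancel_left]
    have g := Commute.mul_geom_sum₂ (Commute.all (u 0 * v 1) (u 1 * v 0)) r
    have e : br u v = u 0 * v 1 - u 1 * v 0 := rfl
    rw [e]
    calc _ = ((u 0 * v 0) ^ t0 * (u 1 * v 1) ^ s1) * ((u 0 * v 1) ^ r - (u 1 * v 0) ^ r) := by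
          ring
      _ = _ := by rw [← g]; ring
  · rw [if_neg h]
    push Not at h
    obtain ⟨r, rfl⟩ := Nat.exists_eq_add_of_le h.le
    have hs1 : s1 = t1 + r := by omega
    subst hs1
    rw [Nat.add_sub_cancel_left]
    have g := Commute.mul_geom_sum₂ (Commute.all (u 0 * v 1) (u 1 * v 0)) r
    have e : br u v = u 0 * v 1 - u 1 * v 0 := rfl
    rw [e]
    calc _ = -(((u 0 * v 0) ^ s0 * (u 1 * v 1) ^ t1) * ((u 0 * v 1) ^ r - (u 1 * v 0) ^ r)) := by
          ring
      _ = _ := by rw [← g]; ring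

section main

variable {w} (hna : ∀ x y : L, w (x + y) ≤ max (w x) (w y))

include hna in
lemma hm_cg (s0 s1 t0 t1 : ℕ) {u v u' v' : Fin 2 → L} (hu : ∀ i, Cg w (u i) (u' i))
    (hv : ∀ i, Cg w (v i) (v' i)) : Cg w (hm s0 s1 t0 t1 u v) (hm s0 s1 t0 t1 u' v') := by
  unfold hm
  split_ifs with h
  · refine Cg.mul hna (Cg.mul hna (Cg.pow hna ((hu 0).mul hna (hv 0)) _)
      (Cg.pow hna ((hu 1).mul hna (hv 1)) _)) (Cg.sum hna _ fun i _ => ?_)
    exact Cg.mul hna (Cg.pow hna ((hu 0).mul hna (hv 1)) _) (Cg.pow hna ((hu 1).mul hna (hv 0)) _)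
  · refine Cg.neg (Cg.mul hna (Cg.mul hna (Cg.pow hna ((hu 0).mul hna (hv 0)) _)
      (Cg.pow hna ((hu 1).mul hna (hv 1)) _)) (Cg.sum hna _ fun i _ => ?_))
    exact Cg.mul hna (Cg.pow hna ((hu 0).mul hna (hv 1)) _) (Cg.pow hna ((hu 1).mul hna (hv 0)) _)

/-- the difference quotient -/
noncomputable def HH (F G : MvPolynomial (Fin 2) L) (u v : Fin 2 → L) : L :=
  ∑ s ∈ F.support, ∑ t ∈ G.support, F.coeff s * G.coeff t * hm (s 0) (s 1) (t 0) (t 1) u v

lemma HH_eq {F G : MvPolynomial (Fin 2) L} {m : ℕ} (hF : F.IsHomogeneous m)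
    (hG : G.IsHomogeneous m) (u v : Fin 2 → L) :
    br (Phi F G u) (Phi F G v) = br u v * HH F G u v := by
  have hdeg : ∀ {H : MvPolynomial (Fin 2) L}, H.IsHomogeneous m → ∀ s ∈ H.support,
      s 0 + s 1 = m := by
    intro H hH s hs
    have h1 := hH (mem_support_iff.mp hs)
    rw [← h1]
    simp [Finsupp.weight_apply, Finsupp.sum_fintype, Fin.sum_univ_two]
  have e1 : br (Phi F G u) (Phi F G v) = eval u F * eval v G - eval v F * eval u G := by
    unfold br Phi
    simp; ring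
  rw [e1, eval_eq', eval_eq', eval_eq', eval_eq', Finset.sum_mul_sum, Finset.sum_mul_sum,
    ← Finset.sum_sub_distrib]
  unfold HH
  rw [Finset.mul_sum]
  apply Finset.sum_congr rfl
  intro s hs
  rw [← Finset.sum_sub_distrib, Finset.mul_sum]
  apply Finset.sum_congr rfl
  intro t ht
  simp only [Fin.prod_univ_two]
  linear_combination (F.coeff s * G.coeff t) * hm_eq (hdeg hF s hs) (hdeg hG t ht) u v

include hna in
lemma HH_cg {F G : MvPolynomial (Fin 2) L} (hFi : ∀ s, w (F.coeff s) ≤ 1)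
    (hGi : ∀ s, w (G.coeff s) ≤ 1) {u v u' v' : Fin 2 → L} (hu : ∀ i, Cg w (u i) (u' i))
    (hv : ∀ i, Cg w (v i) (v' i)) : Cg w (HH F G u v) (HH F G u' v') := by
  unfold HH
  refine Cg.sum hna _ fun s _ => Cg.sum hna _ fun t _ => Cg.mul hna
    (Cg.mul hna (Cg.refl (hFi s)) (Cg.refl (hGi t))) (hm_cg hna _ _ _ _ hu hv)

include hna in
lemma eval_cg {F : MvPolynomial (Fin 2) L} (hFi : ∀ s, w (F.coeff s) ≤ 1)
    {u u' : Fin 2 → L} (hu : ∀ i, Cg w (u i) (u' i)) : Cg w (eval u F) (eval u' F) := by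
  rw [eval_eq', eval_eq']
  refine Cg.sum hna _ fun s _ => Cg.mul hna (Cg.refl (hFi s)) ?_
  simp only [Fin.prod_univ_two]
  exact Cg.mul hna (Cg.pow hna (hu 0) _) (Cg.pow hna (hu 1) _)

include hna in
lemma phi_cg {F G : MvPolynomial (Fin 2) L} (hFi : ∀ s, w (F.coeff s) ≤ 1)
    (hGi : ∀ s, w (G.coeff s) ≤ 1) {u u' : Fin 2 → L} (hu : ∀ i, Cg w (u i) (u' i)) (i : Fin 2) :
    Cg w (Phi F G u i) (Phi F G u' i) := by
  fin_cases i
  · exact eval_cg hna hFi hu
  · exact eval_cg hna hGi hu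

/-! ### Normalised vectors in a residue disc -/

/-- the multiple of `u` whose coordinate `i` is one -/
noncomputable def en (i : Fin 2) (u : Fin 2 → L) : Fin 2 → L := (u i)⁻¹ • u

/-- the other index -/
def oth (i : Fin 2) : Fin 2 := if i = 0 then 1 else 0

lemma nm_eq_or (u : Fin 2 → L) : ∃ i, nm w u = w (u i) := by
  unfold nm
  rcases le_total (w (u 0)) (w (u 1)) with h | h
  · exact ⟨1, max_eq_right h⟩
  · exact ⟨0, max_eq_left h⟩

lemma le_nm (u : Fin 2 → L) (i : Fin 2) : w (u i) ≤ nm w u := by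
  fin_cases i
  · exact le_max_left _ _
  · exact le_max_right _ _

include hna in
lemma dL_le_one {u v : Fin 2 → L} (hu : u ≠ 0) (hv : v ≠ 0) : dL w u v ≤ 1 := by
  have hu' := nm_pos w hu
  have hv' := nm_pos w hv
  unfold dL
  rw [div_le_one (by positivity)]
  unfold br
  rw [sub_eq_add_neg]
  refine (hna _ _).trans (max_le ?_ ?_)
  · rw [map_mul]
    exact mul_le_mul (le_nm u 0) (le_nm v 1) (w.nonneg _) hu'.le
  · rw [AbsoluteValue.map_neg, map_mul]
    exact mul_le_mul (le_nm u 1) (le_nm v 0) (w.nonneg _) hu'.le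

include hna in
/-- in a residue disc the same coordinate is of maximal absolute value -/
lemma chart {u v : Fin 2 → L} (hu : u ≠ 0) (hv : v ≠ 0) (h : dL w u v < 1) {i : Fin 2}
    (hi : w (u i) = nm w u) : w (v i) = nm w v := by
  have hu' := nm_pos w hu
  have hv' := nm_pos w hv
  refine le_antisymm (le_nm v i) ?_
  by_contra hc
  push Not at hc
  obtain ⟨j, hj⟩ := nm_eq_or (w := w) v
  have hij : i ≠ j := by rintro rfl; rw [hj] at hc; exact lt_irrefl _ hc
  have h1 : w (u j * v i) < w (u i * v j) := by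
    rw [map_mul, map_mul, hi, ← hj]
    calc w (u j) * w (v i) ≤ nm w u * w (v i) := by
          exact mul_le_mul_of_nonneg_right (le_nm u j) (w.nonneg _)
      _ < nm w u * nm w v := mul_lt_mul_of_pos_left hc hu'
  have h2 : w (br u v) < w (u i * v j) := by
    unfold dL at h
    rw [div_lt_one (by positivity)] at h
    rwa [map_mul, hi, ← hj]
  have h3 : u i * v j = u j * v i + (br u v) ∨ u i * v j = u j * v i + -(br u v) := by
    unfold br
    fin_cases i <;> fin_cases j
    · exact absurd rfl hij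
    · left; simp
    · right; simp
    · exact absurd rfl hij
  have h4 : w (u i * v j) < w (u i * v j) := by
    rcases h3 with h3 | h3
    · calc w (u i * v j) = w (u j * v i + br u v) := by rw [← h3]
        _ ≤ max (w (u j * v i)) (w (br u v)) := hna _ _
        _ < w (u i * v j) := max_lt h1 h2
    · calc w (u i * v j) = w (u j * v i + -(br u v)) := by rw [← h3]
        _ ≤ max (w (u j * v i)) (w (-(br u v))) := hna _ _
        _ < w (u i * v j) := max_lt h1 (by rw [AbsoluteValue.map_neg]; exact h2)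
  exact lt_irrefl _ h4

lemma ne_of_max {u : Fin 2 → L} (hu : u ≠ 0) {i : Fin 2} (hi : w (u i) = nm w u) : u i ≠ 0 := by
  intro h
  have := nm_pos w hu
  rw [← hi, h, map_zero] at this
  exact lt_irrefl _ this

lemma en_i {u : Fin 2 → L} {i : Fin 2} (h : u i ≠ 0) : en i u i = 1 := by
  unfold en
  simp only [Pi.smul_apply, smul_eq_mul]
  exact inv_mul_cancel₀ h

lemma nm_en {u : Fin 2 → L} (hu : u ≠ 0) {i : Fin 2} (hi : w (u i) = nm w u) :
    nm w (en i u) = 1 := by
  unfold en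
  rw [nm_smul, map_inv₀, hi]
  exact inv_mul_cancel₀ (nm_pos w hu).ne'

lemma en_ne {u : Fin 2 → L} (hu : u ≠ 0) {i : Fin 2} (hi : w (u i) = nm w u) : en i u ≠ 0 := by
  intro h
  have := nm_en hu hi
  rw [h] at this
  unfold nm at this
  simp at this

lemma dL_en {u v : Fin 2 → L} {i : Fin 2} (hu : u i ≠ 0) (hv : v i ≠ 0) :
    dL w (en i u) (en i v) = dL w u v := by
  unfold en
  exact dL_smul w (inv_ne_zero hu) (inv_ne_zero hv) u v

/-- the local coordinate -/
noncomputable def zt (i : Fin 2) (u : Fin 2 → L) : L := if i = 0 then -(en i u 1) else en i u 0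

lemma br_en {u v : Fin 2 → L} {i : Fin 2} (hu : u i ≠ 0) (hv : v i ≠ 0) :
    br (en i u) (en i v) = zt i u - zt i v := by
  have h1 := en_i hu
  have h2 := en_i hv
  unfold br zt
  fin_cases i
  · simp only [Fin.zero_eta, Fin.isValue, if_true] at *
    rw [h1, h2]; ring
  · simp only [Fin.mk_one, Fin.isValue, one_ne_zero, if_false] at *
    rw [h1, h2]; ring

lemma w_zt {u v : Fin 2 → L} (hu0 : u ≠ 0) (hv0 : v ≠ 0) {i : Fin 2} (hu : w (u i) = nm w u)
    (hv : w (v i) = nm w v) : w (zt i u - zt i v) = dL w u v := by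
  rw [← dL_en (ne_of_max hu0 hu) (ne_of_max hv0 hv), ← br_en (ne_of_max hu0 hu) (ne_of_max hv0 hv)]
  unfold dL
  rw [nm_en hu0 hu, nm_en hv0 hv]
  simp

include hna in
/-- normalised vectors of a residue disc are congruent -/
lemma en_cg {u v : Fin 2 → L} (hu0 : u ≠ 0) (hv0 : v ≠ 0) {i : Fin 2} (hu : w (u i) = nm w u)
    (h : dL w u v < 1) (j : Fin 2) : Cg w (en i u j) (en i v j) := by
  have hv := chart hna hu0 hv0 h hu
  have h1 : w (en i u j) ≤ 1 := by rw [← nm_en hu0 hu]; exact le_nm _ j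
  have h2 : w (en i v j) ≤ 1 := by rw [← nm_en hv0 hv]; exact le_nm _ j
  refine ⟨h1, h2, ?_⟩
  have e1 := en_i (ne_of_max hu0 hu)
  have e2 := en_i (ne_of_max hv0 hv)
  have h3 := w_zt hu0 hv0 hu hv
  have h4 : w (zt i u - zt i v) < 1 := by rw [h3]; exact h
  unfold zt at h4
  fin_cases i <;> fin_cases j
  · simp only [Fin.zero_eta, Fin.isValue] at *
    rw [e1, e2]; simp
  · simp only [Fin.zero_eta, Fin.isValue, Fin.mk_one, if_true] at *
    have : -(en 0 u 1) - -(en 0 v 1) = -(en 0 u 1 - en 0 v 1) := by ring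
    rw [this, AbsoluteValue.map_neg] at h4
    exact h4
  · simp only [Fin.zero_eta, Fin.isValue, Fin.mk_one, one_ne_zero, if_false] at *
    exact h4
  · simp only [Fin.zero_eta, Fin.isValue, Fin.mk_one] at *
    rw [e1, e2]; simp

end main

section maps

variable {w} (hna : ∀ x y : L, w (x + y) ≤ max (w x) (w y))
  {F G : MvPolynomial (Fin 2) L} {m : ℕ} (hF : F.IsHomogeneous m)
  (hG : G.IsHomogeneous m) (hFi : ∀ s, w (F.coeff s) ≤ 1) (hGi : ∀ s, w (G.coeff s) ≤ 1)
  (hR : ∀ u : Fin 2 → L, nm w u = 1 → nm w (Phi F G u) = 1)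

include hF hG in
lemma phi_en {u : Fin 2 → L} (i : Fin 2) : Phi F G (en i u) = ((u i)⁻¹) ^ m • Phi F G u := by
  unfold en
  rw [phi_smul hF hG]

include hF hG hR in
/-- distance of the images in terms of the difference quotient -/
lemma dL_phi {u v : Fin 2 → L} (hu0 : u ≠ 0) (hv0 : v ≠ 0) {i : Fin 2} (hu : w (u i) = nm w u)
    (hv : w (v i) = nm w v) :
    dL w (Phi F G u) (Phi F G v) = dL w u v * w (HH F G (en i u) (en i v)) := by
  have h1 : dL w (Phi F G u) (Phi F G v) = dL w (Phi F G (en i u)) (Phi F G (en i v)) := by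
    rw [phi_en hF hG, phi_en hF hG, dL_smul w (pow_ne_zero _ (inv_ne_zero (ne_of_max hu0 hu)))
      (pow_ne_zero _ (inv_ne_zero (ne_of_max hv0 hv)))]
  rw [h1, ← dL_en (ne_of_max hu0 hu) (ne_of_max hv0 hv)]
  unfold dL
  rw [hR _ (nm_en hu0 hu), hR _ (nm_en hv0 hv), nm_en hu0 hu, nm_en hv0 hv, HH_eq hF hG, map_mul]
  simp

include hna hF hG hFi hGi hR in
/-- **if one distance in a residue disc is preserved then all are** -/
theorem rigid_vec {u v z : Fin 2 → L} (hu0 : u ≠ 0) (hv0 : v ≠ 0) (hz0 : z ≠ 0)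
    (hne : dL w u v ≠ 0) (h1 : dL w u v < 1) (h2 : dL w (Phi F G u) (Phi F G v) = dL w u v)
    (h3 : dL w u z < 1) : dL w (Phi F G u) (Phi F G z) = dL w u z := by
  obtain ⟨i, hi⟩ := nm_eq_or (w := w) u
  have hv := chart hna hu0 hv0 h1 hi.symm
  have hz := chart hna hu0 hz0 h3 hi.symm
  rw [dL_phi hF hG hR hu0 hv0 hi.symm hv] at h2
  have h4 : w (HH F G (en i u) (en i v)) = 1 := by
    have : dL w u v * w (HH F G (en i u) (en i v)) = dL w u v * 1 := by rw [h2, mul_one]
    exact mul_left_cancel₀ hne this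
  rw [dL_phi hF hG hR hu0 hz0 hi.symm hz]
  have h5 : Cg w (HH F G (en i u) (en i v)) (HH F G (en i u) (en i z)) :=
    HH_cg hna hFi hGi (fun j => Cg.refl (en_cg hna hu0 hv0 hi.symm h1 j).1) fun j =>
      ((en_cg hna hu0 hv0 hi.symm h1 j).symm).trans hna (en_cg hna hu0 hz0 hi.symm h3 j)
  rw [h5.unit hna h4, mul_one]

/-- the local coordinate does not depend on the scale -/
lemma zt_smul {c : L} (hc : c ≠ 0) (i : Fin 2) (u : Fin 2 → L) : zt i (c • u) = zt i u := by
  have h : en i (c • u) = en i u := by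
    unfold en
    rw [smul_smul]
    congr 1
    simp only [Pi.smul_apply, smul_eq_mul, mul_inv]
    field_simp
  unfold zt
  rw [h]

/-- the difference quotient in the local coordinate -/
noncomputable def kp (F G : MvPolynomial (Fin 2) L) (i : Fin 2) (a b : Fin 2 → L) : L :=
  (Phi F G (en i a) i)⁻¹ * (Phi F G (en i b) i)⁻¹ * HH F G (en i a) (en i b)

include hF hG hR in
lemma beta_unit {a : Fin 2 → L} (ha0 : a ≠ 0) {i : Fin 2} (ha : w (a i) = nm w a)
    (ha' : w (Phi F G a i) = nm w (Phi F G a)) : w (Phi F G (en i a) i) = 1 := by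
  rw [phi_en hF hG, Pi.smul_apply, smul_eq_mul, map_mul, ha', ← nm_smul, ← phi_en hF hG]
  exact hR _ (nm_en ha0 ha)

include hF hG hR in
lemma kp_eq {a b : Fin 2 → L} (ha0 : a ≠ 0) (hb0 : b ≠ 0) {i : Fin 2} (ha : w (a i) = nm w a)
    (hb : w (b i) = nm w b) (ha' : w (Phi F G a i) = nm w (Phi F G a))
    (hb' : w (Phi F G b i) = nm w (Phi F G b)) :
    zt i (Phi F G a) - zt i (Phi F G b) = kp F G i a b * (zt i a - zt i b) := by
  have h1 := beta_unit hF hG hR ha0 ha ha'
  have h2 := beta_unit hF hG hR hb0 hb hb'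
  have h1' : Phi F G (en i a) i ≠ 0 := by intro h; rw [h, map_zero] at h1; exact zero_ne_one h1
  have h2' : Phi F G (en i b) i ≠ 0 := by intro h; rw [h, map_zero] at h2; exact zero_ne_one h2
  have e1 : zt i (Phi F G a) = zt i (Phi F G (en i a)) := by
    rw [phi_en hF hG, zt_smul (pow_ne_zero _ (inv_ne_zero (ne_of_max ha0 ha)))]
  have e2 : zt i (Phi F G b) = zt i (Phi F G (en i b)) := by
    rw [phi_en hF hG, zt_smul (pow_ne_zero _ (inv_ne_zero (ne_of_max hb0 hb)))]
  rw [e1, e2, ← br_en h1' h2', ← br_en (ne_of_max ha0 ha) (ne_of_max hb0 hb)]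
  show br ((Phi F G (en i a) i)⁻¹ • Phi F G (en i a)) ((Phi F G (en i b) i)⁻¹ • Phi F G (en i b)) = _
  rw [br_smul, HH_eq hF hG]
  unfold kp
  ring

include hna hF hG hFi hGi hR in
/-- **a cycle in a residue disc on which the difference quotients are congruent to one** -/
theorem ms_vec {x : ℕ → Fin 2 → L} (hx0 : ∀ j, x j ≠ 0)
    (hstep : ∀ j, ∃ μ : L, μ ≠ 0 ∧ x (j + 1) = μ • Phi F G (x j)) {y : Fin 2 → L} (hy0 : y ≠ 0)
    (hp1 : dL w (x 0) y < 1) (h1 : dL w (x 0) (x 1) < dL w (x 0) y)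
    (h2 : dL w y (Phi F G y) < dL w (x 0) y) {n : ℕ}
    (hn : ∃ μ : L, μ ≠ 0 ∧ x n = μ • x 0) (hne : dL w (x 0) (x 1) ≠ 0) : w (n : L) < 1 := by
  have hphi0 : ∀ u : Fin 2 → L, u ≠ 0 → Phi F G u ≠ 0 := by
    intro u hu h0
    obtain ⟨i, hi⟩ := nm_eq_or (w := w) u
    have h3 := hR _ (nm_en hu hi.symm)
    rw [phi_en hF hG, h0, smul_zero] at h3
    unfold nm at h3
    simp at h3
  have hdist : ∀ j, dL w (x j) (x (j + 1)) ≤ dL w (x 0) (x 1) := by
    intro j
    induction j with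
    | zero => exact le_rfl
    | succ j ih =>
      obtain ⟨μ, hμ, e1⟩ := hstep j
      obtain ⟨ν, hν, e2⟩ := hstep (j + 1)
      rw [e2, e1, dL_smul w hμ hν, ← e1]
      exact (dL_phi_le w hna hF hG hFi hGi hR (hx0 _) (hx0 _)).trans ih
  have h01 : dL w (x 0) (x 1) < 1 := h1.trans hp1
  obtain ⟨i, hi⟩ := nm_eq_or (w := w) (x 0)
  have hch : ∀ j, w (x j i) = nm w (x j) := by
    intro j
    induction j with
    | zero => exact hi.symm
    | succ j ih => exact chart hna (hx0 j) (hx0 (j + 1)) (lt_of_le_of_lt (hdist j) h01) ih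
  have hself : dL w (x 0) (x 0) < 1 := by
    have : dL w (x 0) (x 0) = 0 := by unfold dL br; rw [mul_comm]; simp
    rw [this]; exact zero_lt_one
  have hdisc : ∀ j, dL w (x 0) (x j) < 1 := by
    intro j
    induction j with
    | zero => exact hself
    | succ j ih =>
      exact lt_of_le_of_lt (dL_ultra w hna (hx0 0) (hx0 j) (hx0 (j + 1)))
        (max_lt ih (lt_of_le_of_lt (hdist j) h01))
  have hphich : ∀ j, w (Phi F G (x j) i) = nm w (Phi F G (x j)) := by
    intro j
    obtain ⟨μ, hμ, e⟩ := hstep j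
    have h3 := hch (j + 1)
    rw [e, nm_smul, Pi.smul_apply, smul_eq_mul, map_mul] at h3
    exact mul_left_cancel₀ (w.ne_zero hμ) h3
  have hy : w (y i) = nm w y := chart hna (hx0 0) hy0 hp1 (hch 0)
  have hdy : dL w y (Phi F G y) < 1 := h2.trans hp1
  have hy' : w (Phi F G y i) = nm w (Phi F G y) := chart hna hy0 (hphi0 y hy0) hdy hy
  -- the coordinates of the images
  have hzt : ∀ j, zt i (Phi F G (x j)) = zt i (x (j + 1)) := by
    intro j
    obtain ⟨μ, hμ, e⟩ := hstep j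
    rw [e, zt_smul hμ]
  have hρ0 : 0 ≤ dL w (x 0) (x 1) := by
    unfold dL
    exact div_nonneg (w.nonneg _) (mul_nonneg (nm_pos w (hx0 0)).le (nm_pos w (hx0 1)).le)
  have hρ : 0 < dL w (x 0) y := lt_of_le_of_lt hρ0 h1
  -- the quotient is congruent to one
  have hk0 : w (kp F G i (x 0) y - 1) < 1 := by
    have e1 := kp_eq hF hG hR (hx0 0) hy0 (hch 0) hy (hphich 0) hy'
    have e2 : (kp F G i (x 0) y - 1) * (zt i (x 0) - zt i y) =
        -(zt i (x 0) - zt i (x 1)) + (zt i y - zt i (Phi F G y)) := by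
      rw [hzt 0] at e1
      linear_combination -e1
    have e3 : w ((kp F G i (x 0) y - 1) * (zt i (x 0) - zt i y)) < dL w (x 0) y := by
      rw [e2]
      refine lt_of_le_of_lt (hna _ _) (max_lt ?_ ?_)
      · rw [AbsoluteValue.map_neg, w_zt (hx0 0) (hx0 1) (hch 0) (hch 1)]
        exact h1
      · rw [w_zt hy0 (hphi0 y hy0) hy hy']
        exact h2
    rw [map_mul, w_zt (hx0 0) hy0 (hch 0) hy] at e3
    by_contra hc
    push Not at hc
    nlinarith
  have hcgx : ∀ (a : Fin 2 → L) (ha0 : a ≠ 0), dL w (x 0) a < 1 → ∀ j, Cg w (en i (x 0) j) (en i a j) :=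
    fun a ha0 h j => en_cg hna (hx0 0) ha0 (hch 0) h j
  have hbeta : ∀ (a : Fin 2 → L) (ha0 : a ≠ 0), dL w (x 0) a < 1 →
      Cg w (Phi F G (en i (x 0)) i)⁻¹ (Phi F G (en i a) i)⁻¹ := by
    intro a ha0 h
    exact (phi_cg hna hFi hGi (hcgx a ha0 h) i).inv hna
      (beta_unit hF hG hR (hx0 0) (hch 0) (hphich 0))
  have hkcg : ∀ (a b : Fin 2 → L) (ha0 : a ≠ 0) (hb0 : b ≠ 0), dL w (x 0) a < 1 →
      dL w (x 0) b < 1 → Cg w (kp F G i (x 0) (x 0)) (kp F G i a b) := by
    intro a b ha0 hb0 ha hb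
    exact Cg.mul hna (Cg.mul hna (hbeta a ha0 ha) (hbeta b hb0 hb))
      (HH_cg hna hFi hGi (hcgx a ha0 ha) (hcgx b hb0 hb))
  have hk : ∀ j, w (kp F G i (x (j + 1)) (x j) - 1) < 1 := by
    intro j
    have h3 := (hkcg (x 0) y (hx0 0) hy0 hself hp1).symm.trans hna
      (hkcg (x (j + 1)) (x j) (hx0 _) (hx0 _) (hdisc _) (hdisc _))
    have e : kp F G i (x (j + 1)) (x j) - 1 =
        -(kp F G i (x 0) y - kp F G i (x (j + 1)) (x j)) + (kp F G i (x 0) y - 1) := by ring
    rw [e]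
    refine lt_of_le_of_lt (hna _ _) (max_lt ?_ hk0)
    rw [AbsoluteValue.map_neg]
    exact h3.2.2
  -- the steps
  have hη : ∀ j, ∃ π : L, w (π - 1) < 1 ∧
      zt i (x (j + 1)) - zt i (x j) = π * (zt i (x 1) - zt i (x 0)) := by
    intro j
    induction j with
    | zero => exact ⟨1, by simp, by rw [one_mul]⟩
    | succ j ih =>
      obtain ⟨π, hπ, e⟩ := ih
      refine ⟨kp F G i (x (j + 1)) (x j) * π, ?_, ?_⟩
      · have e' : kp F G i (x (j + 1)) (x j) * π - 1 =
            (kp F G i (x (j + 1)) (x j) - 1) * (π - 1) +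
              ((kp F G i (x (j + 1)) (x j) - 1) + (π - 1)) := by ring
        rw [e']
        refine lt_of_le_of_lt (hna _ _) (max_lt ?_ (lt_of_le_of_lt (hna _ _) (max_lt (hk j) hπ)))
        rw [map_mul]
        nlinarith [hk j, w.nonneg (π - 1), w.nonneg (kp F G i (x (j + 1)) (x j) - 1)]
      · have e1 := kp_eq hF hG hR (hx0 (j + 1)) (hx0 j) (hch _) (hch _) (hphich _) (hphich _)
        rw [hzt, hzt] at e1
        rw [e1, e]
        ring
  choose π hπ1 hπ2 using hη
  have hsum : ∑ j ∈ range n, (zt i (x (j + 1)) - zt i (x j)) = 0 := by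
    rw [Finset.sum_range_sub (fun j => zt i (x j))]
    obtain ⟨μ, hμ, e⟩ := hn
    rw [e, zt_smul hμ, sub_self]
  have hη0 : zt i (x 1) - zt i (x 0) ≠ 0 := by
    intro h0
    apply hne
    rw [← w_zt (hx0 0) (hx0 1) (hch 0) (hch 1)]
    have : zt i (x 0) - zt i (x 1) = 0 := by linear_combination -h0
    rw [this, map_zero]
  have hsum2 : ∑ j ∈ range n, π j = 0 := by
    rw [Finset.sum_congr rfl fun j _ => hπ2 j, ← Finset.sum_mul] at hsum
    exact (mul_eq_zero.mp hsum).resolve_right hη0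
  have hn2 : (n : L) = ∑ j ∈ range n, -(π j - 1) := by
    have : ∑ j ∈ range n, -(π j - 1) = (n : L) - ∑ j ∈ range n, π j := by
      rw [Finset.sum_neg_distrib, Finset.sum_sub_distrib]
      simp
    rw [this, hsum2, sub_zero]
  rw [hn2]
  have hlt : ∀ s : Finset ℕ, w (∑ j ∈ s, -(π j - 1)) < 1 := by
    intro s
    classical
    induction s using Finset.induction_on with
    | empty => simp
    | insert a s ha ih =>
      rw [Finset.sum_insert ha]
      refine lt_of_le_of_lt (hna _ _) (max_lt ?_ ih)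
      rw [AbsoluteValue.map_neg]
      exact hπ1 a
  exact hlt _

end maps

end Pool.Agent.K3h24.UB
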