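import Mathlib
import Pool.Agent.H892.PGK.Count
import Pool.Agent.K3h24.UB.Loc

/-!
# Potentially good reduction at one place: the distance on the rational points
-/

set_option autoImplicit false

namespace Pool.Agent.K3h24.UB

open MvPolynomial Finset
open Pool.Agent.H892.PGR
open Pool.Agent.H892.PGK

section it

variable {L : Type} [Field L] {w : AbsoluteValue L ℝ}

/-- forms with integral coefficients -/
def IntP (w : AbsoluteValue L ℝ) (p : MvPolynomial (Fin 2) L) : Prop := ∀ s, w (p.coeff s) ≤ 1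

variable (hna : ∀ x y : L, w (x + y) ≤ max (w x) (w y))

lemma IntP.one : IntP w 1 := by
  intro s
  rw [coeff_one]
  split_ifs <;> simp

lemma IntP.X (i : Fin 2) : IntP w (X i) := by
  intro s
  rw [coeff_X]
  split_ifs <;> simp

lemma IntP.C {c : L} (hc : w c ≤ 1) : IntP w (C c) := by
  intro s
  rw [coeff_C]
  split_ifs
  · exact hc
  · simp

include hna in
lemma IntP.add {p q : MvPolynomial (Fin 2) L} (hp : IntP w p) (hq : IntP w q) : IntP w (p + q) := by
  intro s
  rw [coeff_add]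
  exact (hna _ _).trans (max_le (hp s) (hq s))

include hna in
lemma IntP.mul {p q : MvPolynomial (Fin 2) L} (hp : IntP w p) (hq : IntP w q) : IntP w (p * q) := by
  intro s
  rw [coeff_mul]
  refine sum_le w hna _ _ zero_le_one fun x _ => ?_
  rw [map_mul]
  exact mul_le_one₀ (hp _) (w.nonneg _) (hq _)

include hna in
lemma IntP.pow {p : MvPolynomial (Fin 2) L} (hp : IntP w p) (n : ℕ) : IntP w (p ^ n) := by
  induction n with
  | zero => rw [pow_zero]; exact IntP.one
  | succ n ih => rw [pow_succ]; exact ih.mul hna hp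

include hna in
lemma IntP.sum {ι : Type*} (s : Finset ι) {f : ι → MvPolynomial (Fin 2) L}
    (h : ∀ i ∈ s, IntP w (f i)) : IntP w (∑ i ∈ s, f i) := by
  classical
  induction s using Finset.induction_on with
  | empty => intro s; simp
  | insert a s ha ih =>
    rw [Finset.sum_insert ha]
    exact (h a (mem_insert_self a s)).add hna (ih fun i hi => h i (mem_insert_of_mem hi))

include hna in
lemma IntP.aeval {p : MvPolynomial (Fin 2) L} (hp : IntP w p) {g : Fin 2 → MvPolynomial (Fin 2) L}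
    (hg : ∀ i, IntP w (g i)) : IntP w (MvPolynomial.aeval g p) := by
  rw [aeval_def, eval₂_eq']
  refine IntP.sum hna _ fun s _ => IntP.mul hna (IntP.C (hp s)) ?_
  simp only [Fin.prod_univ_two]
  exact IntP.mul hna (IntP.pow hna (hg 0) _) (IntP.pow hna (hg 1) _)

include hna in
lemma IntP.iter {F G : MvPolynomial (Fin 2) L} (hF : IntP w F) (hG : IntP w G) (n : ℕ) :
    IntP w (it F G n).1 ∧ IntP w (it F G n).2 := by
  induction n with
  | zero => exact ⟨IntP.X 0, IntP.X 1⟩
  | succ n ih =>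
    have hg : ∀ i : Fin 2, IntP w (![(it F G n).1, (it F G n).2] i) := by
      intro i
      fin_cases i
      · exact ih.1
      · exact ih.2
    exact ⟨hF.aeval hna hg, hG.aeval hna hg⟩

lemma it_phi (F G : MvPolynomial (Fin 2) L) (n : ℕ) (v : Fin 2 → L) :
    Phi (it F G n).1 (it F G n).2 v = (Phi F G)^[n] v := by
  have h := it_eval (E := L) F G n v
  rw [aev, aev, phiK_rat] at h
  exact h

lemma it_map {K : Type} [Field K] [Algebra K L] (F G : MvPolynomial (Fin 2) K) (n : ℕ) :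
    (it F G n).1.map (algebraMap K L) = (it (F.map (algebraMap K L)) (G.map (algebraMap K L)) n).1 ∧
    (it F G n).2.map (algebraMap K L) =
      (it (F.map (algebraMap K L)) (G.map (algebraMap K L)) n).2 := by
  induction n with
  | zero => exact ⟨by simp [it], by simp [it]⟩
  | succ n ih =>
    have key : ∀ H : MvPolynomial (Fin 2) K,
        (MvPolynomial.aeval ![(it F G n).1, (it F G n).2] H).map (algebraMap K L) =
        MvPolynomial.aeval ![(it (F.map (algebraMap K L)) (G.map (algebraMap K L)) n).1,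
          (it (F.map (algebraMap K L)) (G.map (algebraMap K L)) n).2] (H.map (algebraMap K L)) := by
      intro H
      rw [MvPolynomial.map_aeval]
      show _ = eval₂ _ _ _
      rw [eval₂_map]
      show eval₂ _ _ _ = _
      congr 1
      · ext x
        simp [MvPolynomial.algebraMap_eq]
      · ext i : 1
        fin_cases i
        · exact ih.1
        · exact ih.2
    exact ⟨key F, key G⟩

end it

section model

/-- a model over `L` with good reduction, in the coordinates given by the matrix `A` -/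
def Mdl {K : Type} [Field K] (F G : MvPolynomial (Fin 2) K) (d : ℕ) {L : Type} [Field L]
    [Algebra K L] (w : AbsoluteValue L ℝ) (A : Matrix (Fin 2) (Fin 2) L) : Prop :=
  ∃ (c : L) (F₁ G₁ : MvPolynomial (Fin 2) L), c ≠ 0 ∧ F₁.IsHomogeneous d ∧ G₁.IsHomogeneous d ∧
    (∀ s, w (F₁.coeff s) ≤ 1) ∧ (∀ s, w (G₁.coeff s) ≤ 1) ∧
    (∀ u : Fin 2 → L, nm w u = 1 → nm w (Phi F₁ G₁ u) = 1) ∧
    ∀ v : Fin 2 → L,
      A.mulVec (Phi (F.map (algebraMap K L)) (G.map (algebraMap K L)) v) =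
        c • Phi F₁ G₁ (A.mulVec v)

variable {K : Type} [Field K] {F G : MvPolynomial (Fin 2) K} {d : ℕ} {L : Type} [Field L]
  [Algebra K L] {w : AbsoluteValue L ℝ} {A : Matrix (Fin 2) (Fin 2) L}
  (hna : ∀ x y : L, w (x + y) ≤ max (w x) (w y))

include hna in
lemma Mdl.iter (h : Mdl F G d w A) (k : ℕ) : Mdl (it F G k).1 (it F G k).2 (d ^ k) w A := by
  obtain ⟨c, F₁, G₁, hc, hF₁, hG₁, hFi, hGi, hR, hconj⟩ := h
  have hconj' : ∀ k : ℕ, ∃ c' : L, c' ≠ 0 ∧ ∀ v : Fin 2 → L,
      A.mulVec ((Phi (F.map (algebraMap K L)) (G.map (algebraMap K L)))^[k] v) =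
        c' • (Phi F₁ G₁)^[k] (A.mulVec v) := by
    intro k
    induction k with
    | zero => exact ⟨1, one_ne_zero, fun v => by rw [one_smul]; rfl⟩
    | succ k ih =>
      obtain ⟨c', hc', ih⟩ := ih
      refine ⟨c * c' ^ d, mul_ne_zero hc (pow_ne_zero _ hc'), fun v => ?_⟩
      rw [Function.iterate_succ_apply', hconj, ih, phi_smul hF₁ hG₁, smul_smul,
        Function.iterate_succ_apply']
  obtain ⟨c', hc', hk⟩ := hconj' k
  have hi := IntP.iter hna hFi hGi k
  have hh := it_hom hF₁ hG₁ k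
  refine ⟨c', (it F₁ G₁ k).1, (it F₁ G₁ k).2, hc', hh.1, hh.2, hi.1, hi.2, ?_, ?_⟩
  · intro u hu
    rw [it_phi]
    have hs : ∀ k : ℕ, nm w ((Phi F₁ G₁)^[k] u) = 1 := by
      intro k
      induction k with
      | zero => exact hu
      | succ k ih' =>
        rw [Function.iterate_succ_apply']
        exact hR _ ih'
    exact hs k
  · intro v
    have e := it_map (L := L) F G k
    rw [e.1, e.2, it_phi, it_phi]
    exact hk v

/-- the point in the good coordinates -/
noncomputable def BB (A : Matrix (Fin 2) (Fin 2) L) (x : PP K) : Fin 2 → L :=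
  A.mulVec (fun i => algebraMap K L (x.rep i))

lemma BB_ne (hA : A.det ≠ 0) (x : PP K) : BB A x ≠ 0 := by
  intro h0
  have h1 := Matrix.eq_zero_of_mulVec_eq_zero hA h0
  apply x.rep_nonzero
  ext i
  have : algebraMap K L (x.rep i) = 0 := congrFun h1 i
  exact (map_eq_zero _).mp this

lemma br_BB (x y : PP K) : br (BB A x) (BB A y) = A.det * algebraMap K L (br x.rep y.rep) := by
  unfold BB br
  rw [Matrix.det_fin_two]
  simp only [Matrix.mulVec, dotProduct, Fin.sum_univ_two, map_sub, map_mul]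
  ring

/-- the distance of rational points in the good coordinates -/
noncomputable def dd (w : AbsoluteValue L ℝ) (A : Matrix (Fin 2) (Fin 2) L) (x y : PP K) : ℝ :=
  dL w (BB A x) (BB A y)

lemma dd_zero (hA : A.det ≠ 0) (x y : PP K) : dd w A x y = 0 ↔ x = y := by
  have h1 := nm_pos w (BB_ne hA x)
  have h2 := nm_pos w (BB_ne hA y)
  have h3 := br_zero_iff x.rep_nonzero y.rep_nonzero
  rw [Projectivization.mk_rep, Projectivization.mk_rep] at h3
  rw [← h3]
  unfold dd dL
  rw [div_eq_zero_iff, or_iff_left (mul_pos h1 h2).ne', w.eq_zero, br_BB, mul_eq_zero,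
    or_iff_right hA, map_eq_zero]

lemma phi_rep (h : ∀ v : Fin 2 → K, v ≠ 0 → Phi F G v ≠ 0) {c : L} (hc : c ≠ 0)
    {F₁ G₁ : MvPolynomial (Fin 2) L}
    (hconj : ∀ v : Fin 2 → L, A.mulVec (Phi (F.map (algebraMap K L)) (G.map (algebraMap K L)) v) =
        c • Phi F₁ G₁ (A.mulVec v)) (x : PP K) :
    ∃ μ : L, μ ≠ 0 ∧ BB A (fX F G h x) = μ • Phi F₁ G₁ (BB A x) := by
  obtain ⟨b, ha⟩ := Projectivization.exists_smul_eq_mk_rep K (Phi F G x.rep) (h _ x.rep_nonzero)
  refine ⟨algebraMap K L (b : K) * c,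
    mul_ne_zero ((map_ne_zero (algebraMap K L)).mpr b.ne_zero) hc, ?_⟩
  have h1 : (fX F G h x).rep = (b : K) • Phi F G x.rep := by
    unfold fX
    rw [← ha]; rfl
  have h2 : (fun i => algebraMap K L (((b : K) • Phi F G x.rep) i)) = algebraMap K L (b : K) •
      Phi (F.map (algebraMap K L)) (G.map (algebraMap K L))
        (fun i => algebraMap K L (x.rep i)) := by
    have hev : ∀ H : MvPolynomial (Fin 2) K,
        algebraMap K L (eval x.rep H) = eval (fun i => algebraMap K L (x.rep i))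
          (H.map (algebraMap K L)) := by
      intro H
      rw [eval_map]
      exact eval₂_comp (algebraMap K L) x.rep H
    ext i
    fin_cases i
    · change algebraMap K L ((b : K) * eval x.rep F) = algebraMap K L (b : K) * _
      rw [map_mul, hev]
      rfl
    · change algebraMap K L ((b : K) * eval x.rep G) = algebraMap K L (b : K) * _
      rw [map_mul, hev]
      rfl
  unfold BB
  rw [h1, h2, Matrix.mulVec_smul, hconj, smul_smul]

include hna in
lemma dd_nonexp (hA : A.det ≠ 0) (h : ∀ v : Fin 2 → K, v ≠ 0 → Phi F G v ≠ 0)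
    (hM : Mdl F G d w A) (x y : PP K) : dd w A (fX F G h x) (fX F G h y) ≤ dd w A x y := by
  obtain ⟨c, F₁, G₁, hc, hF₁, hG₁, hFi, hGi, hR, hconj⟩ := hM
  obtain ⟨μ, hμ, e1⟩ := phi_rep h hc hconj x
  obtain ⟨ν, hν, e2⟩ := phi_rep h hc hconj y
  unfold dd
  rw [e1, e2, dL_smul w hμ hν]
  exact dL_phi_le w hna hF₁ hG₁ hFi hGi hR (BB_ne hA x) (BB_ne hA y)

include hna in
lemma dd_rigid (hA : A.det ≠ 0) (h : ∀ v : Fin 2 → K, v ≠ 0 → Phi F G v ≠ 0)
    (hM : Mdl F G d w A) (x y z : PP K) (hxy : x ≠ y) (h1 : dd w A x y < 1)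
    (h2 : dd w A (fX F G h x) (fX F G h y) = dd w A x y) (h3 : dd w A x z < 1) :
    dd w A (fX F G h x) (fX F G h z) = dd w A x z := by
  have hne : dd w A x y ≠ 0 := fun h0 => hxy ((dd_zero hA x y).1 h0)
  obtain ⟨c, F₁, G₁, hc, hF₁, hG₁, hFi, hGi, hR, hconj⟩ := hM
  obtain ⟨μ, hμ, e1⟩ := phi_rep h hc hconj x
  obtain ⟨ν, hν, e2⟩ := phi_rep h hc hconj y
  obtain ⟨ξ, hξ, e3⟩ := phi_rep h hc hconj z
  unfold dd at *
  rw [e1, e2, dL_smul w hμ hν] at h2
  rw [e1, e3, dL_smul w hμ hξ]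
  exact rigid_vec hna hF₁ hG₁ hFi hGi hR (BB_ne hA x) (BB_ne hA y) (BB_ne hA z) hne h1 h2 h3

include hna in
lemma dd_ms (hA : A.det ≠ 0) (h : ∀ v : Fin 2 → K, v ≠ 0 → Phi F G v ≠ 0)
    (hM : Mdl F G d w A) (x y : PP K) (h1 : dd w A x y < 1)
    (h2 : dd w A x (fX F G h x) < dd w A x y) (h3 : dd w A y (fX F G h y) < dd w A x y) (n : ℕ)
    (hn : (fX F G h)^[n] x = x) (hne : fX F G h x ≠ x) : w (n : L) < 1 := by
  obtain ⟨c, F₁, G₁, hc, hF₁, hG₁, hFi, hGi, hR, hconj⟩ := hM
  obtain ⟨ν, hν, e⟩ := phi_rep h hc hconj y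
  refine ms_vec hna hF₁ hG₁ hFi hGi hR (x := fun j => BB A ((fX F G h)^[j] x)) (y := BB A y)
    (n := n) (fun j => BB_ne hA _) (fun j => ?_) (BB_ne hA y) h1 h2 ?_
    ⟨1, one_ne_zero, by rw [one_smul]; simp only [hn]; rfl⟩ ?_
  · rw [Function.iterate_succ_apply']
    exact phi_rep h hc hconj _
  · have : dL w (BB A y) (Phi F₁ G₁ (BB A y)) = dd w A y (fX F G h y) := by
      unfold dd
      rw [e, ← dL_smul w one_ne_zero hν, one_smul]
    rw [this]
    exact h3
  · intro h0
    exact hne ((dd_zero hA _ _).1 h0).symm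

/-- the map on the projective line given by the iterated forms -/
lemma fX_it (hF : F.IsHomogeneous d) (hG : G.IsHomogeneous d)
    (h : ∀ v : Fin 2 → K, v ≠ 0 → Phi F G v ≠ 0) (k : ℕ) :
    ∃ hk : ∀ v : Fin 2 → K, v ≠ 0 → Phi (it F G k).1 (it F G k).2 v ≠ 0,
      fX (it F G k).1 (it F G k).2 hk = (fX F G h)^[k] := by
  have hit : ∀ (v : Fin 2 → K) (hv : v ≠ 0) (k : ℕ), ∃ hk : (Phi F G)^[k] v ≠ 0,
      (fX F G h)^[k] (Projectivization.mk K v hv) = Projectivization.mk K ((Phi F G)^[k] v) hk := by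
    intro v hv k
    induction k with
    | zero => exact ⟨hv, rfl⟩
    | succ k ih =>
      obtain ⟨hk, ih⟩ := ih
      have e : (Phi F G)^[k + 1] v = Phi F G ((Phi F G)^[k] v) := Function.iterate_succ_apply' _ _ _
      refine ⟨by rw [e]; exact h _ hk, ?_⟩
      rw [Function.iterate_succ_apply', ih, fX_mk hF hG h _ hk]
      simp only [e]
  have hk : ∀ v : Fin 2 → K, v ≠ 0 → Phi (it F G k).1 (it F G k).2 v ≠ 0 := by
    intro v hv
    rw [it_phi]
    exact (hit v hv k).1
  refine ⟨hk, ?_⟩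
  funext x
  obtain ⟨h1, h2⟩ := hit x.rep x.rep_nonzero k
  rw [Projectivization.mk_rep] at h2
  rw [h2]
  unfold fX
  congr 1
  exact it_phi F G k x.rep

/-- **the data at a place of potentially good reduction** -/
theorem local_full {a : AbsoluteValue K ℝ} (hF : F.IsHomogeneous d) (hG : G.IsHomogeneous d)
    (h : ∀ v : Fin 2 → K, v ≠ 0 → Phi F G v ≠ 0) (hp : PotGood a F G d) :
    ∃ (δ : PP K → PP K → ℝ) (N : PP K → ℝ), (∀ x, 0 < N x) ∧
      (∀ x y, a (br x.rep y.rep) = δ x y * (N x * N y)) ∧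
      (∀ x y z, δ x z ≤ max (δ x y) (δ y z)) ∧ (∀ x y, δ x y ≤ 1) ∧
      (∀ x y, δ (fX F G h x) (fX F G h y) ≤ δ x y) ∧
      (∀ x y z, x ≠ y → δ x y < 1 → δ (fX F G h x) (fX F G h y) = δ x y → δ x z < 1 →
        δ (fX F G h x) (fX F G h z) = δ x z) ∧
      (∀ (k : ℕ) (x y : PP K), δ x y < 1 → δ x ((fX F G h)^[k] x) < δ x y →
        δ y ((fX F G h)^[k] y) < δ x y → ∀ n : ℕ, ((fX F G h)^[k])^[n] x = x →
        (fX F G h)^[k] x ≠ x → a (n : K) < 1) := by
  obtain ⟨L, _, _, w, A, c, F₁, G₁, hna, hw, hA, hc, hF₁, hG₁, hFi, hGi, hR, hconj⟩ := hp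
  have hM : Mdl F G d w A := ⟨c, F₁, G₁, hc, hF₁, hG₁, hFi, hGi, hR, hconj⟩
  have hD : 0 < w A.det := w.pos hA
  have h4 : 0 < Real.sqrt (w A.det) := Real.sqrt_pos.mpr hD
  have h3 : Real.sqrt (w A.det) * Real.sqrt (w A.det) = w A.det := Real.mul_self_sqrt hD.le
  refine ⟨dd w A, fun x => nm w (BB A x) / Real.sqrt (w A.det), fun x => ?_, fun x y => ?_,
    fun x y z => ?_, fun x y => ?_, dd_nonexp hna hA h hM, dd_rigid hna hA h hM, ?_⟩
  · have h1 := nm_pos w (BB_ne hA x)
    positivity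
  · have h1 := nm_pos w (BB_ne hA x)
    have h2 := nm_pos w (BB_ne hA y)
    unfold dd dL
    rw [br_BB, map_mul, hw]
    rw [div_mul_div_comm, h3]
    field_simp
  · exact dL_ultra w hna (BB_ne hA x) (BB_ne hA y) (BB_ne hA z)
  · exact dL_le_one hna (BB_ne hA x) (BB_ne hA y)
  · intro k x y h5 h6 h7 n h8 h9
    obtain ⟨hk, e⟩ := fX_it hF hG h k
    have h10 := dd_ms hna hA hk (hM.iter hna k) x y h5 (by rw [e]; exact h6) (by rw [e]; exact h7) n
      (by rw [e]; exact h8) (by rw [e]; exact h9)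
    rw [← hw (n : K), map_natCast]
    exact h10

end model

end Pool.Agent.K3h24.UB
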