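import Mathlib
import Pool.Agent.K3h24.UB.Mod
import Pool.Agent.K3h24.UB.Fin

/-!
# Rational maps over number fields with potentially good reduction outside a set of primes
-/

set_option autoImplicit false

namespace Pool.Agent.K3h24.UB

open Function MvPolynomial NumberField IsDedekindDomain
open Pool.Agent.H892.PGR (br Phi)
open Pool.Agent.H892.PGK

section field

variable {K : Type} [Field K]

/-- the system of a map with potentially good reduction at all places of a family -/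
theorem sys_of {V : Type} (av : V → AbsoluteValue K ℝ) {F G : MvPolynomial (Fin 2) K} {d : ℕ}
    (hF : F.IsHomogeneous d) (hG : G.IsHomogeneous d)
    (h : ∀ v : Fin 2 → K, v ≠ 0 → Phi F G v ≠ 0) (hp : ∀ v, PotGood (av v) F G d) :
    Nonempty (Sy K V av (PP K) (fX F G h)) := by
  choose δ N h1 h2 h3 h4 h5 h6 h7 using fun v => local_full hF hG h (hp v)
  refine ⟨{ c := fun x y => br x.rep y.rep
            c_zero := ?_
            c_symm := ?_
            pl := ?_
            δ := δ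
            N := N
            N_pos := h1
            eq := h2
            ultra := h3
            le_one := h4
            nonexp := h5
            rigid := h6
            ms := h7 }⟩
  · intro x y
    have := br_zero_iff x.rep_nonzero y.rep_nonzero
    rw [Projectivization.mk_rep, Projectivization.mk_rep] at this
    exact this
  · intro x y
    unfold br; ring
  · intro a b e g
    unfold br; ring

theorem encard_le_of_finset {α : Type*} {S : Set α} {B : ℕ}
    (h : ∀ T : Finset α, (T : Set α) ⊆ S → T.card ≤ B) : S.encard ≤ B := by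
  by_contra hc
  push Not at hc
  have h1 : ((B + 1 : ℕ) : ℕ∞) ≤ S.encard := by
    have := Order.add_one_le_of_lt hc
    exact_mod_cast this
  obtain ⟨T, hT, hT2⟩ := Set.exists_subset_encard_eq h1
  have hf : T.Finite := Set.finite_of_encard_eq_coe hT2
  have h2 := h hf.toFinset (by rw [Set.Finite.coe_toFinset]; exact hT)
  rw [hf.encard_eq_coe_toFinset_card] at hT2
  have h3 : hf.toFinset.card = B + 1 := by exact_mod_cast hT2
  omega

/-- the number of the points with `f ^ m = f ^ n` -/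
theorem count_set {F G : MvPolynomial (Fin 2) K} {d : ℕ} (hd : 2 ≤ d) (hF : F.IsHomogeneous d)
    (hG : G.IsHomogeneous d)
    (hz : ∀ x : Fin 2 → AlgebraicClosure K, x ≠ 0 → ¬ (aeval x F = 0 ∧ aeval x G = 0))
    (h : ∀ v : Fin 2 → K, v ≠ 0 → Phi F G v ≠ 0) {m n : ℕ} (hnm : n < m) :
    {x : PP K | (fX F G h)^[m] x = (fX F G h)^[n] x}.encard ≤ ((d ^ m + d ^ n + 1 : ℕ) : ℕ∞) := by
  refine encard_le_of_finset fun T hT => ?_
  refine count hd hF hG hz hnm T fun x hx => ?_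
  have h1 : (fX F G h)^[m] x = (fX F G h)^[n] x := hT hx
  obtain ⟨a1, a2⟩ := fX_it hF hG h m
  obtain ⟨b1, b2⟩ := fX_it hF hG h n
  rw [← a2, ← b2] at h1
  unfold fX at h1
  have h2 := (br_zero_iff (a1 _ x.rep_nonzero) (b1 _ x.rep_nonzero)).2 h1
  rwa [it_phi, it_phi] at h2

end field

section numfield

variable {K : Type} [Field K] [NumberField K]

theorem adic_lt {v : HeightOneSpectrum (𝓞 K)} {x : K} :
    NumberField.HeightOneSpectrum.adicAbv K v x < 1 ↔ v.valuation K x < 1 := by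
  rw [NumberField.HeightOneSpectrum.adicAbv_def]
  have := WithZeroMulInt.toNNReal_lt_one_iff (m := v.valuation K x)
    (HeightOneSpectrum.one_lt_absNorm_nnreal v)
  exact_mod_cast this

theorem adic_le {v : HeightOneSpectrum (𝓞 K)} {x : K} :
    NumberField.HeightOneSpectrum.adicAbv K v x ≤ 1 ↔ v.valuation K x ≤ 1 := by
  rw [NumberField.HeightOneSpectrum.adicAbv_def]
  have := WithZeroMulInt.toNNReal_le_one_iff (m := v.valuation K x)
    (HeightOneSpectrum.one_lt_absNorm_nnreal v)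
  exact_mod_cast this

theorem adic_eq {v : HeightOneSpectrum (𝓞 K)} {x : K} :
    NumberField.HeightOneSpectrum.adicAbv K v x = 1 ↔ v.valuation K x = 1 := by
  constructor
  · intro h
    refine le_antisymm (adic_le.1 h.le) (not_lt.1 fun h2 => ?_)
    have := adic_lt.2 h2
    linarith
  · intro h
    refine le_antisymm (adic_le.2 h.le) (not_lt.1 fun h2 => ?_)
    have := adic_lt.1 h2
    rw [h] at this
    exact lt_irrefl _ this

/-- the residue field has `N(v)` elements -/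
theorem res_adic (v : HeightOneSpectrum (𝓞 K)) :
    Res (NumberField.HeightOneSpectrum.adicAbv K v) (Ideal.absNorm v.asIdeal) := by
  classical
  intro A hA hA2
  have hap : ∀ x : K, v.valuation K x ≤ 1 →
      ∃ a : 𝓞 K, v.valuation K (algebraMap (𝓞 K) K a - x) < 1 := by
    intro x hx
    obtain ⟨a, ha⟩ := v.exists_valuation_sub_lt_of_integer hx 1
    exact ⟨a, by simpa using ha⟩
  choose! r hr using hap
  have hinj : Set.InjOn (fun x : K => Ideal.Quotient.mk v.asIdeal (r x)) (A : Set K) := by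
    intro x hx y hy hxy
    by_contra hne
    have h1 := hA2 x hx y hy hne
    have h2 : v.valuation K (x - y) < 1 := by
      have hx' := hr x (adic_le.1 (hA x hx))
      have hy' := hr y (adic_le.1 (hA y hy))
      have h3 : r x - r y ∈ v.asIdeal := Ideal.Quotient.eq.1 hxy
      have h4 : v.valuation K (algebraMap (𝓞 K) K (r x - r y)) < 1 :=
        (v.valuation_lt_one_iff_mem (K := K) (r x - r y)).2 h3
      have e : x - y = -(algebraMap (𝓞 K) K (r x) - x) + (algebraMap (𝓞 K) K (r x - r y) +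
          (algebraMap (𝓞 K) K (r y) - y)) := by
        rw [map_sub]; ring
      rw [e]
      refine lt_of_le_of_lt ((v.valuation K).map_add _ _) (max_lt ?_
        (lt_of_le_of_lt ((v.valuation K).map_add _ _) (max_lt h4 hy')))
      rw [Valuation.map_neg]
      exact hx'
    have h5 := adic_lt.2 h2
    linarith
  have : Finite (𝓞 K ⧸ v.asIdeal) := Ideal.finiteQuotientOfFreeOfNeBot v.asIdeal v.ne_bot
  have : Fintype (𝓞 K ⧸ v.asIdeal) := Fintype.ofFinite _
  have h1 := Finset.card_le_univ (A.image fun x : K => Ideal.Quotient.mk v.asIdeal (r x))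
  rw [Finset.card_image_of_injOn hinj] at h1
  rw [Ideal.absNorm_apply, Submodule.cardQuot_apply, Nat.card_eq_fintype_card]
  exact h1

omit [NumberField K] in
theorem Res.mono {a : AbsoluteValue K ℝ} {p q : ℕ} (h : Res a p) (hpq : p ≤ q) : Res a q :=
  fun A h1 h2 => (h A h1 h2).trans hpq

/-- primes of coprime norms have different residue characteristics -/
theorem char_ne {v₁ v₂ : HeightOneSpectrum (𝓞 K)}
    (h : Nat.Coprime (Ideal.absNorm v₁.asIdeal) (Ideal.absNorm v₂.asIdeal)) (l : ℕ)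
    (hl : l.Prime) : NumberField.HeightOneSpectrum.adicAbv K v₁ (l : K) = 1 ∨
      NumberField.HeightOneSpectrum.adicAbv K v₂ (l : K) = 1 := by
  have key : ∀ v : HeightOneSpectrum (𝓞 K),
      NumberField.HeightOneSpectrum.adicAbv K v (l : K) = 1 ∨ l ∣ Ideal.absNorm v.asIdeal := by
    intro v
    have hle : NumberField.HeightOneSpectrum.adicAbv K v (l : K) ≤ 1 := by
      rw [adic_le]
      have := v.valuation_le_one (K := K) (l : 𝓞 K)
      simpa using this
    rcases lt_or_eq_of_le hle with h1 | h1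
    · right
      rw [adic_lt] at h1
      have h2 : (l : 𝓞 K) ∈ v.asIdeal := by
        rw [← v.valuation_lt_one_iff_mem (K := K)]
        simpa using h1
      by_contra hnd
      have h3 : Nat.Coprime l (Ideal.absNorm v.asIdeal) :=
        (Nat.Prime.coprime_iff_not_dvd hl).2 hnd
      have h4 : IsCoprime (l : ℤ) (Ideal.absNorm v.asIdeal : ℤ) := Nat.isCoprime_iff_coprime.2 h3
      obtain ⟨a, b, hab⟩ := h4
      apply v.isPrime.ne_top
      rw [Ideal.eq_top_iff_one]
      have h5 : (1 : 𝓞 K) = (a : 𝓞 K) * (l : 𝓞 K) + (b : 𝓞 K) * (Ideal.absNorm v.asIdeal : 𝓞 K) := by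
        exact_mod_cast congrArg (Int.cast : ℤ → 𝓞 K) hab.symm
      rw [h5]
      exact Ideal.add_mem _ (Ideal.mul_mem_left _ _ h2)
        (Ideal.mul_mem_left _ _ (Ideal.absNorm_mem v.asIdeal))
    · left; exact h1
  rcases key v₁ with h1 | h1
  · left; exact h1
  rcases key v₂ with h2 | h2
  · right; exact h2
  exact absurd h (Nat.not_coprime_of_dvd_of_dvd hl.one_lt h1 h2)

/-- the exceptional units outside the set `S` of primes -/
def US (S : Set (HeightOneSpectrum (𝓞 K))) : Set K :=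
  {x | x ≠ 0 ∧ x ≠ 1 ∧ ∀ v, v ∉ S → v.valuation K x = 1 ∧ v.valuation K (1 - x) = 1}

/-- the conclusion for a map `f` of degree `d` -/
def Concl (f : PP K → PP K) (d N : ℕ) : Prop :=
  (∀ x ∈ periodicPts f, minimalPeriod f x ≤ N) ∧
  (periodicPts f).encard ≤ ((d ^ N : ℕ) : ℕ∞) ∧
  (∃ E ⊆ periodicPts f, E.encard ≤ 3 ∧ (E.encard ≤ 2 ∨ (periodicPts f).encard = 3) ∧
    {R | R ∈ PreP f ∧ (∀ k, f^[k] R ∉ E) ∧ f^[3] R ∉ periodicPts f}.encard ≤ (N : ℕ∞) ∧
    {R | R ∈ PreP f ∧ ∀ k, f^[k] R ∉ E}.encard ≤ ((d ^ N : ℕ) : ℕ∞)) ∧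
  (∀ x, 3 < minimalPeriod f x → (∀ k, minimalPeriod f x ≠ 2 ^ k) →
    (PreP f \ periodicPts f).encard ≤ (N : ℕ∞)) ∧
  (∀ x, minimalPeriod f x = 3 →
    {R | R ∈ PreP f ∧ R ∉ periodicPts f ∧ ∀ k, f^[k] R ≠ x}.encard ≤ (N : ℕ∞))

/-- **the deterministic theorem** -/
theorem det (M q : ℕ) : ∃ N : ℕ, ∀ (K : Type) [Field K] [NumberField K]
    (S : Set (HeightOneSpectrum (𝓞 K))), (US S).encard ≤ M →
    (∃ v₁ ∉ S, ∃ v₂ ∉ S, Ideal.absNorm v₁.asIdeal ≤ q ∧ Ideal.absNorm v₂.asIdeal ≤ q ∧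
      Nat.Coprime (Ideal.absNorm v₁.asIdeal) (Ideal.absNorm v₂.asIdeal)) →
    ∀ d : ℕ, 2 ≤ d → ∀ F G : MvPolynomial (Fin 2) K, F.IsHomogeneous d → G.IsHomogeneous d →
    (∀ x : Fin 2 → AlgebraicClosure K, x ≠ 0 → ¬ (aeval x F = 0 ∧ aeval x G = 0)) →
    (∀ v ∉ S, PotGood (NumberField.HeightOneSpectrum.adicAbv K v) F G d) →
    ∀ h : (∀ v : Fin 2 → K, v ≠ 0 → Phi F G v ≠ 0), Concl (fX F G h) d N := by
  set Λ := ((q + 2) ^ 2).factorial with hΛ
  have hΛ0 : 0 < Λ := Nat.factorial_pos _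
  refine ⟨4 * M + (Λ + 3) + 2, ?_⟩
  intro K _ _ S hM hv d hd F G hF hG hz hp h
  obtain ⟨v₁, hv₁, v₂, hv₂, hq₁, hq₂, hcop⟩ := hv
  obtain ⟨Y⟩ := sys_of (V := {v : HeightOneSpectrum (𝓞 K) // v ∉ S})
    (fun v => NumberField.HeightOneSpectrum.adicAbv K v.1) hF hG h (fun v => hp v.1 v.2)
  have hEU : (EU (fun v : {v : HeightOneSpectrum (𝓞 K) // v ∉ S} =>
      NumberField.HeightOneSpectrum.adicAbv K v.1)).encard ≤ (M : ℕ∞) := by
    refine (Set.encard_le_encard ?_).trans hM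
    rintro x ⟨h0, h1, h2⟩
    exact ⟨h0, h1, fun v hv => ⟨adic_eq.1 (h2 ⟨v, hv⟩).1, adic_eq.1 (h2 ⟨v, hv⟩).2⟩⟩
  set f := fX F G h with hf
  have hdvd : ∀ x ∈ periodicPts f, minimalPeriod f x ∣ Λ := fun x hx =>
    Y.cycle_dvd (v₁ := ⟨v₁, hv₁⟩) (v₂ := ⟨v₂, hv₂⟩) ((res_adic v₁).mono hq₁)
      ((res_adic v₂).mono hq₂) (fun l hl => char_ne hcop l hl) hx
  have hcyc : ∀ x ∈ periodicPts f, f^[Λ] x = x := fun x hx =>
    isPeriodicPt_iff_minimalPeriod_dvd.2 (hdvd x hx)
  have hcount : ∀ j : ℕ, {R | f^[j] R ∈ periodicPts f}.encard ≤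
      ((d ^ (Λ + j) + d ^ j + 1 : ℕ) : ℕ∞) := by
    intro j
    refine (Set.encard_le_encard ?_).trans (count_set hd hF hG hz h (m := Λ + j) (n := j)
      (by omega))
    intro R hR
    show f^[Λ + j] R = f^[j] R
    rw [iterate_add_apply]
    exact hcyc _ hR
  have hA3 := hcount 3
  have hnum : 4 * M + (d ^ (Λ + 3) + d ^ 3 + 1) ≤ d ^ (4 * M + (Λ + 3) + 2) := by
    set e := 4 * M + (Λ + 3) with he
    have hd0 : 0 < d := by omega
    have a1 : 4 * M ≤ d ^ e := by
      calc 4 * M ≤ 2 ^ (4 * M) := Nat.lt_two_pow_self.le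
        _ ≤ d ^ (4 * M) := Nat.pow_le_pow_left hd _
        _ ≤ d ^ e := Nat.pow_le_pow_right hd0 (by omega)
    have a2 : d ^ (Λ + 3) ≤ d ^ e := Nat.pow_le_pow_right hd0 (by omega)
    have a3 : d ^ 3 ≤ d ^ e := Nat.pow_le_pow_right hd0 (by omega)
    have a4 : 1 ≤ d ^ e := Nat.one_le_pow _ _ hd0
    have a5 : 4 ≤ d ^ 2 := by nlinarith
    calc 4 * M + (d ^ (Λ + 3) + d ^ 3 + 1) ≤ d ^ e * 4 := by omega
      _ ≤ d ^ e * d ^ 2 := Nat.mul_le_mul_left _ a5
      _ = d ^ (e + 2) := by rw [← pow_add]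
  have hPer : (periodicPts f).encard ≤ ((d ^ (Λ + 3) + d ^ 3 + 1 : ℕ) : ℕ∞) := by
    refine (Set.encard_le_encard ?_).trans hA3
    intro R hR
    exact Sy.per_iter hR 3
  have h4M : 4 * (EU (fun v : {v : HeightOneSpectrum (𝓞 K) // v ∉ S} =>
      NumberField.HeightOneSpectrum.adicAbv K v.1)).encard ≤ ((4 * M : ℕ) : ℕ∞) := by
    push_cast
    exact mul_le_mul_right hEU 4
  have h4N : ((4 * M : ℕ) : ℕ∞) ≤ ((4 * M + (Λ + 3) + 2 : ℕ) : ℕ∞) := by
    exact_mod_cast (by omega : 4 * M ≤ 4 * M + (Λ + 3) + 2)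
  have h1M : (EU (fun v : {v : HeightOneSpectrum (𝓞 K) // v ∉ S} =>
      NumberField.HeightOneSpectrum.adicAbv K v.1)).encard ≤
        ((4 * M + (Λ + 3) + 2 : ℕ) : ℕ∞) := by
    refine hEU.trans ?_
    exact_mod_cast (by omega : M ≤ 4 * M + (Λ + 3) + 2)
  have htot : ((4 * M : ℕ) : ℕ∞) + ((d ^ (Λ + 3) + d ^ 3 + 1 : ℕ) : ℕ∞) ≤
      ((d ^ (4 * M + (Λ + 3) + 2) : ℕ) : ℕ∞) := by exact_mod_cast hnum
  refine ⟨?_, ?_, ?_, ?_, ?_⟩
  · intro x hx
    have := Nat.le_of_dvd hΛ0 (hdvd x hx)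
    omega
  · exact (hPer.trans le_add_self).trans htot
  · obtain ⟨E, hE1, hE2, hE3, hE4, hE5⟩ := Y.few_targets hA3
    exact ⟨E, hE1, hE2, hE3, (hE4.trans h4M).trans h4N, (hE5.trans (add_le_add h4M le_rfl)).trans htot⟩
  · intro x hx3 hx2
    have hx : x ∈ periodicPts f := minimalPeriod_pos_iff_mem_periodicPts.1 (by omega)
    exact ((Y.tails_of_cycle hx hx3 hx2).trans h4M).trans h4N
  · intro x hx3
    have hx : x ∈ periodicPts f := minimalPeriod_pos_iff_mem_periodicPts.1 (by omega)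
    exact (Y.tails_of_three hx hx3).trans h1M

end numfield

end Pool.Agent.K3h24.UB
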