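import Mathlib
import Pool.Agent.K3h24.SB.Law
import Pool.Agent.K3h24.UB.Glob

/-!
# Random ideals: few exceptional units, and two small primes which do not divide the ideal
-/

set_option autoImplicit false

namespace Pool.Agent.K3h24.UB

open NumberField IsDedekindDomain Filter Topology
open Pool.Agent.K3h24.SB Pool.Agent.TH876.Loc
open Pool.Agent.H691R3 (fv Nv)

variable {K : Type} [Field K] [NumberField K]

theorem adm0 : Adm (fun x : K => sp (-x)) := ⟨∅, fun _ _ _ hv _ => hv⟩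

theorem US_eq (I : Ideal (𝓞 K)) :
    US {v : HeightOneSpectrum (𝓞 K) | v.asIdeal ∣ I} = Sol (fun x : K => sp (-x)) I := by
  ext x
  constructor
  · rintro ⟨h0, h1, h2⟩
    have hp := pt_neg h0 h1
    refine ⟨hp, fun v hv => ?_⟩
    have hv' : v ∈ sp (-x) := hv
    rw [mem_rad hp] at hv'
    by_contra hc
    exact hv' (h2 v hc)
  · rintro ⟨hp, h⟩
    obtain ⟨h0, h1⟩ := of_pt_neg hp
    refine ⟨h0, h1, fun v hv => ?_⟩
    by_contra hc
    exact hv (h v ((mem_rad hp v).2 hc))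

/-- few ideals have many exceptional units -/
theorem few_units (ε : ℝ) (hε : 0 < ε) : ∃ M : ℕ, ∀ X : ℝ, 1 ≤ X →
    (({I ∈ Box K X | (M : ℝ) < (Sol (fun x : K => sp (-x)) I).ncard}.ncard : ℕ) : ℝ) ≤
      ε * (Box K X).ncard := by
  classical
  obtain ⟨C, hC, hav⟩ := average (adm0 (K := K))
  obtain ⟨c₀, hc₀, hlow⟩ := box_low K
  obtain ⟨M, hM⟩ := exists_nat_gt (C / (c₀ * ε))
  refine ⟨M, fun X hX => ?_⟩
  have hX0 : 0 < X := by linarith
  have hMp : (0 : ℝ) < M := lt_trans (by positivity) hM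
  set F := (box_fin (K := K) X).toFinset with hF
  set B := F.filter fun I => (M : ℝ) < (Sol (fun x : K => sp (-x)) I).ncard with hB
  have hBe : {I ∈ Box K X | (M : ℝ) < (Sol (fun x : K => sp (-x)) I).ncard} =
      (B : Set (Ideal (𝓞 K))) := by
    ext I
    rw [hB, Finset.coe_filter, hF]
    simp
  rw [hBe, Set.ncard_coe_finset]
  have h1 : (M : ℝ) * B.card ≤ ∑ I ∈ F, ((Sol (fun x : K => sp (-x)) I).ncard : ℝ) := by
    calc (M : ℝ) * B.card = ∑ I ∈ B, (M : ℝ) := by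
          rw [Finset.sum_const, nsmul_eq_mul, mul_comm]
      _ ≤ ∑ I ∈ B, ((Sol (fun x : K => sp (-x)) I).ncard : ℝ) :=
          Finset.sum_le_sum fun I hI => by
            rw [hB, Finset.mem_filter] at hI
            exact hI.2.le
      _ ≤ _ := Finset.sum_le_sum_of_subset_of_nonneg (Finset.filter_subset _ _)
          fun I _ _ => Nat.cast_nonneg _
  have h2 := hav X hX0.le
  have h3 := hlow X hX
  rw [div_lt_iff₀ (by positivity)] at hM
  -- `M * B ≤ C X < M c₀ ε X ≤ M ε Box`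
  have h4 : (M : ℝ) * B.card ≤ M * (ε * (Box K X).ncard) := by
    calc (M : ℝ) * B.card ≤ C * X := h1.trans h2
      _ ≤ M * (c₀ * ε) * X := mul_le_mul_of_nonneg_right hM.le hX0.le
      _ = M * ε * (c₀ * X) := by ring
      _ ≤ M * ε * (Box K X).ncard := mul_le_mul_of_nonneg_left h3 (by positivity)
      _ = _ := by ring
  exact le_of_mul_le_mul_left h4 hMp

/-- a prime above a rational prime -/
theorem above (p : ℕ) (hp : p.Prime) : ∃ v : HeightOneSpectrum (𝓞 K), (p : 𝓞 K) ∈ v.asIdeal := by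
  have h2 : ¬ IsUnit (p : 𝓞 K) := by
    intro hu
    have h3 : Ideal.absNorm (Ideal.span {(p : 𝓞 K)}) = 1 := by
      rw [Ideal.span_singleton_eq_top.2 hu, Ideal.absNorm_top]
    rw [Ideal.absNorm_span_singleton, show (p : 𝓞 K) = algebraMap ℤ (𝓞 K) p by simp,
      Algebra.norm_algebraMap] at h3
    rw [Int.natAbs_pow, Int.natAbs_natCast] at h3
    have h4 : Module.finrank ℤ (𝓞 K) ≠ 0 := by
      rw [RingOfIntegers.rank]
      exact Module.finrank_pos.ne'
    have h5 := (Nat.pow_eq_one.1 h3).resolve_right h4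
    exact hp.one_lt.ne' h5
  obtain ⟨P, hP, hmem⟩ := exists_max_ideal_of_mem_nonunits h2
  have hne : P ≠ ⊥ := by
    rintro rfl
    rw [Ideal.mem_bot] at hmem
    exact hp.ne_zero (by exact_mod_cast hmem)
  exact ⟨⟨P, hP.isPrime, hne⟩, hmem⟩

/-- its norm divides a power of the rational prime -/
theorem norm_dvd {p : ℕ} {v : HeightOneSpectrum (𝓞 K)} (h : (p : 𝓞 K) ∈ v.asIdeal) :
    Ideal.absNorm v.asIdeal ∣ p ^ Module.finrank ℤ (𝓞 K) := by
  have h1 := Ideal.absNorm_dvd_absNorm_of_le ((Ideal.span_singleton_le_iff_mem (I := v.asIdeal)).2 h)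
  rw [Ideal.absNorm_span_singleton, show (p : 𝓞 K) = algebraMap ℤ (𝓞 K) p by simp,
    Algebra.norm_algebraMap, Int.natAbs_pow, Int.natAbs_natCast] at h1
  exact h1

/-- primes with coprime norms -/
theorem exists_seq : ∃ π : ℕ → HeightOneSpectrum (𝓞 K), ∀ i j, i ≠ j →
    Nat.Coprime (Ideal.absNorm (π i).asIdeal) (Ideal.absNorm (π j).asIdeal) := by
  choose π hπ using fun i : ℕ => above (K := K) (Nat.nth Nat.Prime i) (Nat.prime_nth_prime i)
  refine ⟨π, fun i j hij => ?_⟩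
  have h1 : Nat.nth Nat.Prime i ≠ Nat.nth Nat.Prime j := fun h =>
    hij (Nat.nth_injective Nat.infinite_setOfPred_prime h)
  have h2 : Nat.Coprime (Nat.nth Nat.Prime i) (Nat.nth Nat.Prime j) :=
    (Nat.coprime_primes (Nat.prime_nth_prime i) (Nat.prime_nth_prime j)).2 h1
  exact Nat.Coprime.coprime_dvd_left (norm_dvd (hπ i))
    (Nat.Coprime.coprime_dvd_right (norm_dvd (hπ j)) (Nat.Coprime.pow _ _ h2))

open Classical in
/-- few ideals are divisible by all but one of the first primes -/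
theorem few_div (π : ℕ → HeightOneSpectrum (𝓞 K)) (hπ : ∀ i j, i ≠ j →
    Nat.Coprime (Ideal.absNorm (π i).asIdeal) (Ideal.absNorm (π j).asIdeal)) (ε : ℝ) (hε : 0 < ε) :
    ∃ k : ℕ, 0 < k ∧ ∀ X : ℝ, 1 ≤ X →
      (({I ∈ Box K X | ∃ i < k, ∀ j < k, j ≠ i → (π j).asIdeal ∣ I}.ncard : ℕ) : ℝ) ≤
        ε * (Box K X).ncard := by
  obtain ⟨C, hC, hb⟩ := box_count K
  obtain ⟨c₀, hc₀, hlow⟩ := box_low K
  have hlim : Tendsto (fun k : ℕ => (k : ℝ) * (1 / 2 : ℝ) ^ k) atTop (𝓝 0) :=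
    tendsto_self_mul_const_pow_of_lt_one (by norm_num) (by norm_num)
  obtain ⟨k₀, hk₀⟩ := eventually_atTop.1 (hlim.eventually_lt_const
    (show 0 < ε * c₀ / (2 * C) by positivity))
  set k := max k₀ 1 with hk
  have hk1 : 1 ≤ k := le_max_right _ _
  have hkε := hk₀ k (le_max_left _ _)
  refine ⟨k, hk1, fun X hX => ?_⟩
  have hX0 : 0 < X := by linarith
  have hinj : Function.Injective π := by
    intro i j hij
    by_contra hne
    have h1 := hπ i j hne
    rw [hij, Nat.coprime_self] at h1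
    have := NumberField.HeightOneSpectrum.one_lt_absNorm (π j)
    omega
  set s : ℕ → Finset (Pr K) := fun i => ((Finset.range k).erase i).image π with hs
  have hsub : {I ∈ Box K X | ∃ i < k, ∀ j < k, j ≠ i → (π j).asIdeal ∣ I} ⊆
      ⋃ i ∈ Finset.range k, (Mult (s i) ∩ Box K X) := by
    rintro I ⟨hI, i, hi, hij⟩
    refine Set.mem_iUnion₂.2 ⟨i, Finset.mem_range.2 hi, fun v hv => ?_, hI⟩
    obtain ⟨j, hj, rfl⟩ := Finset.mem_image.1 hv
    rw [Finset.mem_erase, Finset.mem_range] at hj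
    exact hij j hj.2 hj.1
  have hUf : (⋃ i ∈ Finset.range k, (Mult (s i) ∩ Box K X)).Finite :=
    Set.Finite.biUnion (Finset.range k).finite_toSet fun i _ =>
      (box_fin X).subset Set.inter_subset_right
  have h1 := Set.ncard_le_ncard hsub hUf
  have h2 : (⋃ i ∈ Finset.range k, (Mult (s i) ∩ Box K X)).ncard ≤
      ∑ i ∈ Finset.range k, (Mult (s i) ∩ Box K X).ncard := Finset.set_ncard_biUnion_le _ _
  have hnn : ∀ i ∈ Finset.range k, (nn (s i))⁻¹ ≤ 2 * (1 / 2 : ℝ) ^ k := by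
    intro i hi
    have hcard : (s i).card = k - 1 := by
      rw [hs]
      simp only
      rw [Finset.card_image_of_injective _ hinj, Finset.card_erase_of_mem hi, Finset.card_range]
    have h3 : (2 : ℝ) ^ (k - 1) ≤ nn (s i) := by
      rw [← hcard, nn, ← Finset.prod_const]
      refine Finset.prod_le_prod (fun _ _ => by norm_num) fun v _ => ?_
      have h4 := NumberField.HeightOneSpectrum.one_lt_absNorm v
      have h5 : (2 : ℝ) ≤ (Ideal.absNorm v.asIdeal : ℝ) := by exact_mod_cast h4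
      exact h5
    have h6 : (nn (s i))⁻¹ ≤ ((2 : ℝ) ^ (k - 1))⁻¹ := inv_anti₀ (by positivity) h3
    refine h6.trans (le_of_eq ?_)
    obtain ⟨m, hm⟩ := Nat.exists_eq_add_of_le hk1
    have h7 : (1 / 2 : ℝ) ^ k = ((2 : ℝ) ^ k)⁻¹ := by rw [one_div, inv_pow]
    rw [h7, hm, Nat.add_sub_cancel_left, pow_add, pow_one, mul_inv, ← mul_assoc,
      mul_inv_cancel₀ two_ne_zero, one_mul]
  calc (({I ∈ Box K X | ∃ i < k, ∀ j < k, j ≠ i → (π j).asIdeal ∣ I}.ncard : ℕ) : ℝ) ≤
      ∑ i ∈ Finset.range k, ((Mult (s i) ∩ Box K X).ncard : ℝ) := by exact_mod_cast h1.trans h2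
    _ ≤ ∑ i ∈ Finset.range k, C * X * (2 * (1 / 2 : ℝ) ^ k) :=
        Finset.sum_le_sum fun i hi => (mult_count hb _ hX0.le).trans
          (mul_le_mul_of_nonneg_left (hnn i hi) (by positivity))
    _ = 2 * C * X * ((k : ℝ) * (1 / 2 : ℝ) ^ k) := by
        rw [Finset.sum_const, Finset.card_range, nsmul_eq_mul]; ring
    _ ≤ 2 * C * X * (ε * c₀ / (2 * C)) := mul_le_mul_of_nonneg_left hkε.le (by positivity)
    _ = ε * (c₀ * X) := by field_simp
    _ ≤ ε * (Box K X).ncard := mul_le_mul_of_nonneg_left (hlow X hX) hε.le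

/-- **almost all ideals**: few exceptional units, and two small primes of different residue
characteristics which do not divide the ideal -/
theorem random (K : Type) [Field K] [NumberField K] (ε : ℝ) (hε : 0 < ε) : ∃ M q : ℕ,
    ∀ X : ℝ, 1 ≤ X → ∃ B ⊆ Box K X, (B.ncard : ℝ) ≤ ε * (Box K X).ncard ∧
      ∀ I ∈ Box K X, I ∉ B →
        (US {v : HeightOneSpectrum (𝓞 K) | v.asIdeal ∣ I}).encard ≤ M ∧
        ∃ v₁ ∉ {v : HeightOneSpectrum (𝓞 K) | v.asIdeal ∣ I},
        ∃ v₂ ∉ {v : HeightOneSpectrum (𝓞 K) | v.asIdeal ∣ I},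
          Ideal.absNorm v₁.asIdeal ≤ q ∧ Ideal.absNorm v₂.asIdeal ≤ q ∧
          Nat.Coprime (Ideal.absNorm v₁.asIdeal) (Ideal.absNorm v₂.asIdeal) := by
  obtain ⟨M, hM⟩ := few_units (K := K) (ε / 2) (by positivity)
  obtain ⟨π, hπ⟩ := exists_seq (K := K)
  obtain ⟨k, hk, hdiv⟩ := few_div π hπ (ε / 2) (by positivity)
  refine ⟨M, ∑ i ∈ Finset.range k, Ideal.absNorm (π i).asIdeal, fun X hX => ?_⟩
  set B1 := {I ∈ Box K X | (M : ℝ) < (Sol (fun x : K => sp (-x)) I).ncard} with hB1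
  set B2 := {I ∈ Box K X | ∃ i < k, ∀ j < k, j ≠ i → (π j).asIdeal ∣ I} with hB2
  refine ⟨B1 ∪ B2, ?_, ?_, ?_⟩
  · rintro I (hI | hI)
    · exact hI.1
    · exact hI.1
  · have h1 := Set.ncard_union_le B1 B2
    have h2 := hM X hX
    have h3 := hdiv X hX
    have h4 : ((B1 ∪ B2).ncard : ℝ) ≤ (B1.ncard : ℝ) + B2.ncard := by exact_mod_cast h1
    linarith
  · intro I hI hIB
    have hn1 : I ∉ B1 := fun h => hIB (Or.inl h)
    have hn2 : I ∉ B2 := fun h => hIB (Or.inr h)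
    refine ⟨?_, ?_⟩
    · rw [US_eq, (sol_fin (adm0 (K := K)) hI.1).encard_eq_coe_toFinset_card]
      have h1 : ¬ (M : ℝ) < (Sol (fun x : K => sp (-x)) I).ncard := fun h => hn1 ⟨hI, h⟩
      rw [Set.ncard_eq_toFinset_card _ (sol_fin (adm0 (K := K)) hI.1)] at h1
      push Not at h1
      exact_mod_cast h1
    · have h1 : ∀ i < k, ∃ j < k, j ≠ i ∧ ¬ (π j).asIdeal ∣ I := by
        intro i hi
        by_contra hc
        push Not at hc
        exact hn2 ⟨hI, i, hi, hc⟩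
      obtain ⟨i, hi, -, hi2⟩ := h1 0 hk
      obtain ⟨j, hj, hji, hj2⟩ := h1 i hi
      have hle : ∀ i < k, Ideal.absNorm (π i).asIdeal ≤
          ∑ i ∈ Finset.range k, Ideal.absNorm (π i).asIdeal := fun i hi =>
        Finset.single_le_sum (f := fun i => Ideal.absNorm (π i).asIdeal)
          (fun _ _ => Nat.zero_le _) (Finset.mem_range.2 hi)
      exact ⟨π i, hi2, π j, hj2, hle i hi, hle j hj, hπ i j (Ne.symm hji)⟩

end Pool.Agent.K3h24.UB
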